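import Pool.Agent.Lib.MP_edb5be_nt.ND.H38.ZDen
import Pool.Agent.Lib.MP_edb5be_nt.ND.H75.Count
import Pool.Agent.Lib.MP_edb5be_nt.ND.Iface2

/-!
Project TS (MP_edb5be_nt), module ZDENS: from dyadic blocks to natural densities.
-/

set_option autoImplicit false

namespace Pool.Agent.Lib.MP_edb5be_nt.TS.H52

open Finset Pool.Agent.Lib.MP_0a5adf_nt.TP Pool.Agent.Lib.MP_edb5be_nt.ND Filter Topology
open Pool.Agent.Lib.MP_edb5be_nt.ND.H75 (A A_le A_nonneg A_succ A_sub finA)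

/-- The counts up to `X` and below `2 ^ (log_2 X)` differ by at most 1. -/
theorem cnt_A (B : Set ℕ) (X : ℝ) (hX : 0 < X) :
    |({N : ℕ | N ∈ B ∧ 1 ≤ N ∧ (N : ℝ) ≤ X}.ncard : ℝ) - A B (Real.logb 2 X)| ≤ 1 := by
  set y := Real.logb 2 X with hy
  have h2y : (2 : ℝ) ^ y = X := Real.rpow_logb (by norm_num) (by norm_num) hX
  have hsub : {N : ℕ | N ∈ B ∧ 1 ≤ N ∧ (N : ℝ) < 2 ^ y} ⊆
      {N : ℕ | N ∈ B ∧ 1 ≤ N ∧ (N : ℝ) ≤ X} := by
    rw [← h2y]; exact A_sub B y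
  have hle1 : ({N : ℕ | N ∈ B ∧ 1 ≤ N ∧ (N : ℝ) < 2 ^ y}.ncard) ≤
      {N : ℕ | N ∈ B ∧ 1 ≤ N ∧ (N : ℝ) ≤ X}.ncard := Set.ncard_le_ncard hsub (finA _ _)
  have hle2 : {N : ℕ | N ∈ B ∧ 1 ≤ N ∧ (N : ℝ) ≤ X}.ncard ≤
      ({N : ℕ | N ∈ B ∧ 1 ≤ N ∧ (N : ℝ) < 2 ^ y}.ncard) + 1 := by
    have hsub2 : {N : ℕ | N ∈ B ∧ 1 ≤ N ∧ (N : ℝ) ≤ X} ⊆
        insert ⌊X⌋₊ {N : ℕ | N ∈ B ∧ 1 ≤ N ∧ (N : ℝ) < 2 ^ y} := by
      rintro N ⟨a, b, c⟩
      rcases lt_or_eq_of_le c with h | h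
      · exact Or.inr ⟨a, b, by rw [h2y]; exact h⟩
      · left; rw [← h, Nat.floor_natCast]
    exact le_trans (Set.ncard_le_ncard hsub2 (((finA B _).subset hsub).insert _))
      (Set.ncard_insert_le _ _)
  unfold A
  have h1 : (({N : ℕ | N ∈ B ∧ 1 ≤ N ∧ (N : ℝ) < 2 ^ y}.ncard : ℕ) : ℝ) ≤
    (({N : ℕ | N ∈ B ∧ 1 ≤ N ∧ (N : ℝ) ≤ X}.ncard : ℕ) : ℝ) := by exact_mod_cast hle1
  have h2 : (({N : ℕ | N ∈ B ∧ 1 ≤ N ∧ (N : ℝ) ≤ X}.ncard : ℕ) : ℝ) ≤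
    (({N : ℕ | N ∈ B ∧ 1 ≤ N ∧ (N : ℝ) < 2 ^ y}.ncard : ℕ) : ℝ) + 1 := by exact_mod_cast hle2
  rw [abs_le]; constructor <;> linarith

/-- Quantitative step: if the block densities are within `ε` of `D` from `y₀` on, then so are the
initial densities, up to a bounded multiple of `2 ^ y₀`. -/
theorem A_of_blocks (B : Set ℕ) (D ε y₀ : ℝ) (hy₀ : 0 ≤ y₀) (hε : 0 ≤ ε)
    (h : ∀ y : ℝ, y₀ ≤ y → |Gd B y - D| ≤ ε) (y : ℝ) (hy : y₀ ≤ y) :
    |A B y - D * 2 ^ y| ≤ ε * 2 ^ y + (1 + |D|) * 2 ^ (y₀ + 1) := by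
  have key : ∀ n : ℕ, ∀ y : ℝ, y₀ ≤ y → y ≤ y₀ + 1 + n →
      |A B y - D * 2 ^ y| ≤ ε * 2 ^ y + (1 + |D|) * 2 ^ (y₀ + 1) := by
    intro n
    induction n with
    | zero =>
      intro y hy1 hy2
      have h2y : (0 : ℝ) < 2 ^ y := by positivity
      have h1 : |A B y - D * 2 ^ y| ≤ (1 + |D|) * 2 ^ y := by
        have a1 := A_le B y
        have a2 := A_nonneg B y
        have a3 : |A B y| ≤ 2 ^ y := by rw [abs_of_nonneg a2]; exact a1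
        calc |A B y - D * 2 ^ y| ≤ |A B y| + |D * 2 ^ y| := abs_sub _ _
          _ ≤ 2 ^ y + |D| * 2 ^ y := by
              rw [abs_mul, abs_of_pos h2y]
              linarith
          _ = (1 + |D|) * 2 ^ y := by ring
      have h2 : (2 : ℝ) ^ y ≤ 2 ^ (y₀ + 1) :=
        Real.rpow_le_rpow_of_exponent_le (by norm_num) (by simpa using hy2)
      have h3 : 0 ≤ ε * 2 ^ y := by positivity
      have h4 : (1 + |D|) * 2 ^ y ≤ (1 + |D|) * 2 ^ (y₀ + 1) :=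
        mul_le_mul_of_nonneg_left h2 (by positivity)
      linarith
    | succ n ih =>
      intro y hy1 hyw
      by_cases hc : y ≤ y₀ + 1 + n
      · exact ih y hy1 hc
      · push Not at hc
        have hn : (0 : ℝ) ≤ n := Nat.cast_nonneg _
        obtain ⟨x, rfl⟩ : ∃ x, y = x + 1 := ⟨y - 1, by ring⟩
        have hx0 : y₀ ≤ x := by linarith
        have hx : x ≤ y₀ + 1 + n := by push_cast at hyw; linarith
        have h1 := ih x hx0 hx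
        have h2 := h x hx0
        rw [A_succ B x (by linarith)]
        have h2x : (0 : ℝ) < 2 ^ x := by positivity
        have e1 : (2 : ℝ) ^ (x + 1) = 2 * 2 ^ x := by
          rw [Real.rpow_add (by norm_num), Real.rpow_one]; ring
        have e2 : A B x + 2 ^ x * Gd B x - D * 2 ^ (x + 1) =
            (A B x - D * 2 ^ x) + 2 ^ x * (Gd B x - D) := by rw [e1]; ring
        rw [e2]
        calc |A B x - D * 2 ^ x + 2 ^ x * (Gd B x - D)| ≤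
            |A B x - D * 2 ^ x| + |2 ^ x * (Gd B x - D)| := abs_add_le _ _
          _ ≤ (ε * 2 ^ x + (1 + |D|) * 2 ^ (y₀ + 1)) + 2 ^ x * ε := by
              rw [abs_mul (2 ^ x), abs_of_pos h2x]
              exact add_le_add h1 (mul_le_mul_of_nonneg_left h2 h2x.le)
          _ = ε * 2 ^ (x + 1) + (1 + |D|) * 2 ^ (y₀ + 1) := by rw [e1]; ring
  obtain ⟨n, hn⟩ := exists_nat_ge (y - y₀ - 1)
  exact key n y hy (by linarith)

/-- If the block densities tend to `D`, then `B` has natural density `D`. -/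
theorem hasDensN_of_blocks (B : Set ℕ) (D : ℝ) (h : Tendsto (Gd B) atTop (𝓝 D)) :
    HasDensN B D := by
  unfold HasDensN
  rw [Metric.tendsto_atTop] at h ⊢
  intro ε hε
  obtain ⟨y₁, hy₁⟩ := h (ε / 4) (by positivity)
  set y₀ : ℝ := max y₁ 0 with hy₀
  have hb : ∀ y : ℝ, y₀ ≤ y → |Gd B y - D| ≤ ε / 4 := fun y hy => by
    have := hy₁ y (le_trans (le_max_left _ _) hy)
    rw [Real.dist_eq] at this
    exact this.le
  set K : ℝ := (1 + |D|) * 2 ^ (y₀ + 1) + 1 with hK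
  have hK0 : 0 < K := by positivity
  refine ⟨max (2 ^ y₀) (4 * K / ε), fun X hX => ?_⟩
  have hX1 : (2 : ℝ) ^ y₀ ≤ X := le_trans (le_max_left _ _) hX
  have hX2 : 4 * K / ε ≤ X := le_trans (le_max_right _ _) hX
  have h2 : (0 : ℝ) < 2 ^ y₀ := by positivity
  have hX0 : 0 < X := lt_of_lt_of_le h2 hX1
  have hy : y₀ ≤ Real.logb 2 X := (Real.le_logb_iff_rpow_le (by norm_num) hX0).2 hX1
  have a1 := A_of_blocks B D (ε / 4) y₀ (le_max_right _ _) (by positivity) hb _ hy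
  rw [Real.rpow_logb (by norm_num) (by norm_num) hX0] at a1
  have a2 := cnt_A B X hX0
  have a3 : |({N : ℕ | N ∈ B ∧ 1 ≤ N ∧ (N : ℝ) ≤ X}.ncard : ℝ) - D * X| ≤ ε / 4 * X + K := by
    calc |({N : ℕ | N ∈ B ∧ 1 ≤ N ∧ (N : ℝ) ≤ X}.ncard : ℝ) - D * X| =
        |(({N : ℕ | N ∈ B ∧ 1 ≤ N ∧ (N : ℝ) ≤ X}.ncard : ℝ) - A B (Real.logb 2 X)) +
          (A B (Real.logb 2 X) - D * X)| := by congr 1; ring
      _ ≤ 1 + (ε / 4 * X + (1 + |D|) * 2 ^ (y₀ + 1)) :=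
          (abs_add_le _ _).trans (add_le_add a2 a1)
      _ = ε / 4 * X + K := by rw [hK]; ring
  have a4 : K ≤ ε / 4 * X := by
    rw [div_le_iff₀ hε] at hX2
    linarith
  rw [Real.dist_eq]
  have e1 : ({N : ℕ | N ∈ B ∧ 1 ≤ N ∧ (N : ℝ) ≤ X}.ncard : ℝ) / X - D =
      (({N : ℕ | N ∈ B ∧ 1 ≤ N ∧ (N : ℝ) ≤ X}.ncard : ℝ) - D * X) / X := by field_simp
  rw [e1, abs_div, abs_of_pos hX0, div_lt_iff₀ hX0]
  nlinarith

/-- The same on the integers. -/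
theorem hasDens_of_blocks (d : Bool) (S : Set ℤ) (D : ℝ)
    (h : Tendsto (Gd {n : ℕ | sg d * (n : ℤ) ∈ S}) atTop (𝓝 D)) : HasDens d S D := by
  have h1 := hasDensN_of_blocks _ D h
  unfold HasDensN at h1
  unfold HasDens
  refine h1.congr fun X => ?_
  rw [H38.cnt_eq]

end Pool.Agent.Lib.MP_edb5be_nt.TS.H52
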