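import Pool.Agent.Lib.MP_edb5be_nt.TS.H52.Dens

/-!
Project TS (MP_edb5be_nt), module ZDENS: thresholds that depend on `n`.
-/

set_option autoImplicit false

namespace Pool.Agent.Lib.MP_edb5be_nt.TS.H52

open Finset Pool.Agent.Lib.MP_0a5adf_nt.TP Pool.Agent.Lib.MP_edb5be_nt.ND Filter Topology

theorem gd_fin (B : Set ℕ) (u : ℝ) :
    {N : ℕ | N ∈ B ∧ (2 : ℝ) ^ u ≤ N ∧ (N : ℝ) < 2 ^ (u + 1)}.Finite := by
  apply Set.Finite.subset (Set.finite_Iic ⌊(2 : ℝ) ^ (u + 1)⌋₊)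
  rintro N ⟨_, _, h2⟩
  exact Nat.le_floor h2.le

/-- Monotonicity of the block densities. -/
theorem gd_mono {B B' : Set ℕ} {u : ℝ}
    (h : ∀ N : ℕ, (2 : ℝ) ^ u ≤ N → (N : ℝ) < 2 ^ (u + 1) → N ∈ B → N ∈ B') :
    Gd B u ≤ Gd B' u := by
  unfold Gd
  apply div_le_div_of_nonneg_right _ (by positivity)
  have hs : {N : ℕ | N ∈ B ∧ (2 : ℝ) ^ u ≤ N ∧ (N : ℝ) < 2 ^ (u + 1)} ⊆
      {N : ℕ | N ∈ B' ∧ (2 : ℝ) ^ u ≤ N ∧ (N : ℝ) < 2 ^ (u + 1)} := by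
    rintro N ⟨h1, h2, h3⟩
    exact ⟨h N h2 h3 h1, h2, h3⟩
  exact_mod_cast Set.ncard_le_ncard hs (gd_fin B' u)

/-- The block densities of a set squeezed between the members of a family. -/
theorem tendsto_gd_of_between {B : ℕ → Set ℕ} {W : Set ℕ} {D : ℝ} {t₁ t₂ : ℝ → ℕ}
    (h₁ : Tendsto (fun u : ℝ => Gd (B (t₁ u)) u) atTop (𝓝 D))
    (h₂ : Tendsto (fun u : ℝ => Gd (B (t₂ u)) u) atTop (𝓝 D))
    (hW : ∀ᶠ u : ℝ in atTop, ∀ N : ℕ, (2 : ℝ) ^ u ≤ N → (N : ℝ) < 2 ^ (u + 1) →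
      (N ∈ B (t₁ u) → N ∈ W) ∧ (N ∈ W → N ∈ B (t₂ u))) :
    Tendsto (Gd W) atTop (𝓝 D) := by
  refine tendsto_of_tendsto_of_tendsto_of_le_of_le' h₁ h₂ ?_ ?_
  · filter_upwards [hW] with u hu
    exact gd_mono fun N a b c => (hu N a b).1 c
  · filter_upwards [hW] with u hu
    exact gd_mono fun N a b c => (hu N a b).2 c

/-- Thresholds `f (log_2 N)` depending on `N`. -/
theorem tendsto_gd_threshold {B : ℕ → Set ℕ} (hB : Monotone B) {f : ℝ → ℝ} {D : ℝ}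
    (hf : ∀ᶠ u : ℝ in atTop, ∀ x ∈ Set.Icc u (u + 1), f u ≤ f x ∧ f x ≤ f (u + 1))
    (h₁ : Tendsto (fun u : ℝ => Gd (B ⌊f u⌋₊) u) atTop (𝓝 D))
    (h₂ : Tendsto (fun u : ℝ => Gd (B ⌊f (u + 1)⌋₊) u) atTop (𝓝 D)) :
    Tendsto (Gd {N : ℕ | N ∈ B ⌊f (Real.logb 2 N)⌋₊}) atTop (𝓝 D) := by
  refine tendsto_gd_of_between (t₁ := fun u => ⌊f u⌋₊) (t₂ := fun u => ⌊f (u + 1)⌋₊) h₁ h₂ ?_
  filter_upwards [hf] with u hu N h1 h2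
  have hN : (0 : ℝ) < N := lt_of_lt_of_le (by positivity) h1
  have hx : Real.logb 2 N ∈ Set.Icc u (u + 1) := by
    constructor
    · exact (Real.le_logb_iff_rpow_le (by norm_num) hN).2 h1
    · exact (Real.logb_le_iff_le_rpow (by norm_num) hN).2 h2.le
  obtain ⟨a, b⟩ := hu _ hx
  exact ⟨fun h => hB (Nat.floor_mono a) h, fun h => hB (Nat.floor_mono b) h⟩

end Pool.Agent.Lib.MP_edb5be_nt.TS.H52
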