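import Pool.Agent.Lib.MP_edb5be_nt.TS.Iface
import Pool.Agent.Lib.MP_edb5be_nt.TS.H52.Thr

/-!
Project TS (MP_edb5be_nt), module DG: the law of the time to fall below `g n`, natural density.
-/

set_option autoImplicit false

namespace Pool.Agent.Lib.MP_edb5be_nt.TS.H52

open Finset Pool.Agent.Lib.MP_0a5adf_nt.TP Pool.Agent.Lib.MP_edb5be_nt.ND
  Pool.Agent.Lib.MP_edb5be_nt.ND.H82 Filter Topology
open Pool.Agent.Lib.MP_edb5be_nt.ND.H75 (A A_le A_nonneg A_succ A_sub finA)

theorem fll_inv {d : Bool} {S : Set ℕ} {lo : ℕ} (h : InvA d S lo) : InvF d (Fll d S lo) lo := by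
  intro n hn t
  constructor
  · rintro ⟨hS, k, hk, hkW⟩
    refine ⟨(h n hn).1 hS, ?_⟩
    rcases Nat.eq_zero_or_pos k with h0 | h0
    · rw [h0] at hkW
      simp only [Function.iterate_zero, id_eq] at hkW
      omega
    · obtain ⟨k', rfl⟩ : ∃ k', k = k' + 1 := ⟨k - 1, by omega⟩
      exact ⟨k', by omega, by rwa [Function.iterate_succ_apply] at hkW⟩
  · rintro ⟨hS, k, hk, hkW⟩
    exact ⟨(h n hn).2 hS, k + 1, by omega, by rwa [Function.iterate_succ_apply]⟩

theorem invA_mono {d : Bool} {S : Set ℕ} {lo lo' : ℕ} (h : InvA d S lo) (hl : lo ≤ lo') :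
    InvA d S lo' := fun n hn => h n (le_trans (Nat.pow_le_pow_right (by norm_num) hl) hn)

theorem tendsto_two_rpow : Tendsto (fun u : ℝ => (2 : ℝ) ^ u) atTop atTop := by
  have h1 : Tendsto (fun u : ℝ => Real.exp (Real.log 2 * u)) atTop atTop :=
    Real.tendsto_exp_atTop.comp (tendsto_id.const_mul_atTop (Real.log_pos (by norm_num)))
  refine h1.congr fun u => ?_
  rw [Real.rpow_def_of_pos (by norm_num)]

/-- Natural density gives the limit of the initial densities. -/
theorem tendsto_A {B : Set ℕ} {D : ℝ} (h : HasDensN B D) :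
    Tendsto (fun u : ℝ => A B u / 2 ^ u) atTop (𝓝 D) := by
  have h1 := h.comp tendsto_two_rpow
  have h2 : Tendsto (fun u : ℝ => 1 / (2 : ℝ) ^ u) atTop (𝓝 0) :=
    tendsto_const_nhds.div_atTop tendsto_two_rpow
  have h3 : Tendsto (fun u : ℝ => A B u / 2 ^ u -
      ({N : ℕ | N ∈ B ∧ 1 ≤ N ∧ (N : ℝ) ≤ (2 : ℝ) ^ u}.ncard : ℝ) / (2 : ℝ) ^ u) atTop (𝓝 0) := by
    refine squeeze_zero_norm (fun u => ?_) h2
    have h4 : (0 : ℝ) < 2 ^ u := by positivity
    have h5 := cnt_A B ((2 : ℝ) ^ u) h4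
    rw [Real.logb_rpow (by norm_num) (by norm_num)] at h5
    rw [← sub_div, Real.norm_eq_abs, abs_div, abs_of_pos h4, abs_sub_comm]
    exact div_le_div_of_nonneg_right h5 h4.le
  have h4 := h3.add h1
  simp only [zero_add] at h4
  refine h4.congr fun u => ?_
  simp only [Function.comp_apply]
  ring

/-- Natural density gives the limit of the block densities. -/
theorem tendsto_gd_of_hasDensN {B : Set ℕ} {D : ℝ} (h : HasDensN B D) :
    Tendsto (Gd B) atTop (𝓝 D) := by
  have h1 := tendsto_A h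
  have h2 : Tendsto (fun u : ℝ => A B (u + 1) / 2 ^ (u + 1)) atTop (𝓝 D) :=
    h1.comp (tendsto_atTop_add_const_right _ 1 tendsto_id)
  have h3 := (h2.const_mul 2).sub h1
  have e : 2 * D - D = D := by ring
  rw [e] at h3
  refine h3.congr' ?_
  filter_upwards [eventually_ge_atTop (0 : ℝ)] with u hu
  have h4 : (0 : ℝ) < 2 ^ u := by positivity
  have e1 : (2 : ℝ) ^ (u + 1) = 2 * 2 ^ u := by
    rw [Real.rpow_add (by norm_num), Real.rpow_one]; ring
  rw [A_succ B u hu, e1]
  field_simp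
  ring

/-- Diagonal choice. -/
theorem diag {P : ℕ → ℝ → Prop} (h : ∀ m, ∀ᶠ u : ℝ in atTop, P m u) {bound : ℝ → ℕ}
    (hb : Tendsto bound atTop atTop) : ∃ m : ℝ → ℕ, Tendsto m atTop atTop ∧
      (∀ᶠ u : ℝ in atTop, P (m u) u) ∧ ∀ u, m u ≤ bound u := by
  classical
  refine ⟨fun u => Nat.findGreatest (P · u) (bound u), ?_, ?_, fun u => Nat.findGreatest_le _⟩
  · rw [tendsto_atTop]
    intro a
    filter_upwards [h a, hb.eventually_ge_atTop a] with u h1 h2
    exact Nat.le_findGreatest h2 h1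
  · filter_upwards [h 0] with u h1
    exact Nat.findGreatest_spec (P := fun m => P m u) (Nat.zero_le _) h1

/-- A property of all large `n` holds in all blocks far out. -/
theorem ev_block {p : ℕ → Prop} (h : ∀ᶠ n : ℕ in atTop, p n) :
    ∀ᶠ u : ℝ in atTop, ∀ n : ℕ, (2 : ℝ) ^ u ≤ n → p n := by
  obtain ⟨N, hN⟩ := eventually_atTop.1 h
  filter_upwards [tendsto_two_rpow.eventually_ge_atTop (N : ℝ)] with u hu n hn
  exact hN n (by exact_mod_cast hu.trans hn)

theorem tendsto_quarter : Tendsto (fun u : ℝ => ⌊u ^ (1 / 4 : ℝ)⌋₊) atTop atTop :=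
  tendsto_nat_floor_atTop.comp (tendsto_rpow_atTop (by norm_num))

theorem quarter_div_sqrt : Tendsto (fun u : ℝ => u ^ (1 / 4 : ℝ) / √u) atTop (𝓝 0) := by
  have h1 : Tendsto (fun u : ℝ => u ^ (-(1 / 4) : ℝ)) atTop (𝓝 0) :=
    tendsto_rpow_neg_atTop (by norm_num)
  refine h1.congr' ?_
  filter_upwards [eventually_gt_atTop (0 : ℝ)] with u hu
  rw [Real.sqrt_eq_rpow, ← Real.rpow_sub hu]
  norm_num

theorem mu_pos : 0 < mu := by
  have h : th < 2 := by
    unfold th
    rw [Real.logb_lt_iff_lt_rpow (by norm_num) (by norm_num)]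
    norm_num
  unfold mu
  linarith

theorem nu_eq : nu = mu * Real.log 2 := by
  unfold nu mu th
  have h2 : Real.log 2 ≠ 0 := (Real.log_pos (by norm_num)).ne'
  rw [Real.logb, Real.log_div (by norm_num) (by norm_num), show (4 : ℝ) = 2 ^ 2 by norm_num,
    Real.log_pow]
  push_cast
  field_simp

theorem th_pos : 0 < th := Real.logb_pos (by norm_num) (by norm_num)

theorem bb_eq : mu * bb * √(Real.log 2) = th / 2 * (√mu)⁻¹ := by
  have h2 : 0 < Real.log 2 := Real.log_pos (by norm_num)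
  have hmu := mu_pos
  have hth : th * Real.log 2 = Real.log 3 := by
    unfold th
    rw [Real.logb]
    field_simp
  unfold bb
  rw [nu_eq, Real.sqrt_mul hmu.le, ← hth]
  have h3 : √(Real.log 2) ≠ 0 := (Real.sqrt_pos.2 h2).ne'
  have h4 : √mu ≠ 0 := (Real.sqrt_pos.2 hmu).ne'
  field_simp

/-- The threshold in base 2. -/
noncomputable def x0 (z u : ℝ) : ℝ := u / mu + z * bb * √(Real.log 2) * √u

/-- Thresholds with a bounded change have the same asymptotics. -/
theorem asym_of_bdd {z K : ℝ} {t : ℝ → ℕ} (h : ∀ᶠ u : ℝ in atTop, |(t u : ℝ) - x0 z u| ≤ K) :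
    AsymT z t := by
  unfold AsymT
  have hmu := mu_pos
  have hth := th_pos
  have hs : 0 < √mu := Real.sqrt_pos.2 hmu
  -- the denominator tends to infinity
  have hden : Tendsto (fun u : ℝ => th / 2 * √(u / mu)) atTop atTop := by
    refine Tendsto.const_mul_atTop (by positivity) ?_
    exact Real.tendsto_sqrt_atTop.comp (tendsto_id.atTop_div_const hmu)
  have h1 : Tendsto (fun u : ℝ => mu * K / (th / 2 * √(u / mu))) atTop (𝓝 0) :=
    tendsto_const_nhds.div_atTop hden
  have h2 : Tendsto (fun u : ℝ => (mu * t u - u) / (th / 2 * √(u / mu)) - z) atTop (𝓝 0) := by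
    refine squeeze_zero_norm' ?_ h1
    filter_upwards [h, eventually_gt_atTop (0 : ℝ)] with u hu hu0
    have hd : 0 < th / 2 * √(u / mu) := by
      have : 0 < √(u / mu) := Real.sqrt_pos.2 (by positivity)
      positivity
    have e1 : mu * x0 z u - u = z * (th / 2 * √(u / mu)) := by
      unfold x0
      rw [Real.sqrt_div hu0.le]
      have e2 : mu * (z * bb * √(Real.log 2) * √u) = z * √u * (mu * bb * √(Real.log 2)) := by ring
      rw [mul_add, e2, bb_eq]
      field_simp
      ring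
    have e3 : (mu * t u - u) / (th / 2 * √(u / mu)) - z =
        mu * (t u - x0 z u) / (th / 2 * √(u / mu)) := by
      rw [div_sub' hd.ne']
      congr 1
      linarith
    rw [e3, Real.norm_eq_abs, abs_div, abs_mul, abs_of_pos hmu, abs_of_pos hd]
    exact div_le_div_of_nonneg_right (mul_le_mul_of_nonneg_left hu hmu.le) hd.le
  have h3 := h2.add_const z
  simpa using h3

/-- `t` is large. -/
theorem asym_large' {z : ℝ} {t : ℝ → ℕ} (h : AsymT z t) (K : ℝ) :
    ∀ᶠ u : ℝ in atTop, u / 2 + K ≤ mu * t u := by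
  unfold AsymT at h
  have hmu := mu_pos
  have hth := th_pos
  have h8 : ∀ᶠ u : ℝ in atTop, z - 1 ≤ (mu * t u - u) / (th / 2 * √(u / mu)) :=
    h.eventually_const_le (by linarith)
  have h9 : Tendsto (fun u : ℝ => √u * (√u / 2 - (|z| + 1) * (th / 2) / √mu)) atTop atTop := by
    apply Real.tendsto_sqrt_atTop.atTop_mul_atTop₀
    simpa [sub_eq_add_neg] using
      tendsto_atTop_add_const_right atTop (-((|z| + 1) * (th / 2) / √mu))
        (Real.tendsto_sqrt_atTop.atTop_div_const (by norm_num : (0 : ℝ) < 2))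
  filter_upwards [h8, eventually_gt_atTop (0 : ℝ), h9.eventually_ge_atTop K] with u h8 hu h9
  have hd : 0 < th / 2 * √(u / mu) := by
    have : 0 < √(u / mu) := Real.sqrt_pos.2 (by positivity)
    positivity
  rw [le_div_iff₀ hd] at h8
  have h10 : -(|z| + 1) * (th / 2 * √(u / mu)) ≤ (z - 1) * (th / 2 * √(u / mu)) := by
    apply mul_le_mul_of_nonneg_right _ hd.le
    linarith [neg_abs_le z]
  have h11 : √u * (√u / 2 - (|z| + 1) * (th / 2) / √mu) =
      u / 2 - (|z| + 1) * (th / 2 * √(u / mu)) := by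
    rw [Real.sqrt_div hu.le, mul_sub, mul_div_assoc', Real.mul_self_sqrt hu.le]
    ring
  rw [h11] at h9
  linarith

theorem asym_ge {z : ℝ} {t : ℝ → ℕ} (h : AsymT z t) (K : ℝ) :
    ∀ᶠ u : ℝ in atTop, K ≤ t u := by
  have hmu := mu_pos
  filter_upwards [asym_large' h (mu * K), eventually_ge_atTop (0 : ℝ)] with u h1 h2
  have h3 : mu * K ≤ mu * t u := by linarith
  exact le_of_mul_le_mul_left h3 hmu

/-- Shifts of the height and of the time do not change the asymptotics. -/
theorem asym_shift {z : ℝ} {t : ℝ → ℕ} (h : AsymT z t) (h₀ : ℝ) (j : ℕ) :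
    AsymT z (fun u => t (u - h₀) - j) := by
  have h' := h
  unfold AsymT at h ⊢
  have hmu := mu_pos
  have hth := th_pos
  have h1 : Tendsto (fun u : ℝ => u - h₀) atTop atTop := by
    simpa [sub_eq_add_neg] using tendsto_atTop_add_const_right atTop (-h₀) tendsto_id
  have h2 := h.comp h1
  have hden : Tendsto (fun u : ℝ => th / 2 * √(u / mu)) atTop atTop := by
    refine Tendsto.const_mul_atTop (by positivity) ?_
    exact Real.tendsto_sqrt_atTop.comp (tendsto_id.atTop_div_const hmu)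
  -- ratio of the denominators
  have hr : Tendsto (fun u : ℝ => (th / 2 * √((u - h₀) / mu)) / (th / 2 * √(u / mu))) atTop
      (𝓝 1) := by
    have h3 : Tendsto (fun u : ℝ => √(1 - h₀ / u)) atTop (𝓝 1) := by
      have h4 : Tendsto (fun u : ℝ => 1 - h₀ / u) atTop (𝓝 (1 - 0)) :=
        tendsto_const_nhds.sub (tendsto_const_nhds.div_atTop tendsto_id)
      rw [sub_zero] at h4
      simpa using h4.sqrt
    refine h3.congr' ?_
    filter_upwards [eventually_gt_atTop (0 : ℝ), eventually_ge_atTop h₀] with u hu hu2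
    rw [mul_div_mul_left _ _ (by positivity : th / 2 ≠ 0), ← Real.sqrt_div (by
      apply div_nonneg _ hmu.le
      linarith)]
    congr 1
    field_simp
  have h5 := h2.mul hr
  rw [mul_one] at h5
  -- the remaining error
  have h6 : Tendsto (fun u : ℝ => (mu * j + |h₀|) / (th / 2 * √(u / mu))) atTop (𝓝 0) :=
    tendsto_const_nhds.div_atTop hden
  -- `t` is large
  have ht : ∀ᶠ u : ℝ in atTop, (j : ℝ) ≤ t (u - h₀) :=
    h1.eventually (asym_ge h' j)
  have h13 : Tendsto (fun u : ℝ => (mu * ((t (u - h₀) - j : ℕ) : ℝ) - u) / (th / 2 * √(u / mu)) -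
      ((fun u : ℝ => (mu * t u - u) / (th / 2 * √(u / mu))) ∘ fun u => u - h₀) u *
        ((th / 2 * √((u - h₀) / mu)) / (th / 2 * √(u / mu)))) atTop (𝓝 0) := by
    refine squeeze_zero_norm' ?_ h6
    filter_upwards [ht, eventually_gt_atTop (0 : ℝ), eventually_gt_atTop h₀] with u ht hu hu2
    have hd : 0 < th / 2 * √(u / mu) := by
      have : 0 < √(u / mu) := Real.sqrt_pos.2 (by positivity)
      positivity
    have hd2 : 0 < th / 2 * √((u - h₀) / mu) := by
      have : 0 < √((u - h₀) / mu) := Real.sqrt_pos.2 (div_pos (by linarith) hmu)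
      positivity
    have ht' : j ≤ t (u - h₀) := by exact_mod_cast ht
    simp only [Function.comp_apply]
    rw [div_mul_div_cancel₀ hd2.ne', ← sub_div, Nat.cast_sub ht', Real.norm_eq_abs, abs_div,
      abs_of_pos hd]
    apply div_le_div_of_nonneg_right _ hd.le
    have e : mu * ((t (u - h₀) : ℝ) - j) - u - (mu * t (u - h₀) - (u - h₀)) = -(mu * j) - h₀ := by
      ring
    rw [e]
    have hj : 0 ≤ mu * (j : ℝ) := by positivity
    rw [abs_le]
    constructor
    · linarith [le_abs_self h₀]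
    · linarith [neg_abs_le h₀]
  have h14 := h13.add h5
  rw [zero_add] at h14
  refine h14.congr fun u => ?_
  simp only [Function.comp_apply]
  ring

theorem mu_le : mu ≤ 1 / 2 := by
  have h : 1 ≤ th := by
    unfold th
    rw [Real.le_logb_iff_rpow_le (by norm_num) (by norm_num)]
    norm_num
  unfold mu
  linarith

theorem tendsto_sub_const (h : ℝ) : Tendsto (fun u : ℝ => u - h) atTop atTop := by
  simpa [sub_eq_add_neg] using tendsto_atTop_add_const_right atTop (-h) tendsto_id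

/-- GS with classes, in blocks. -/
theorem gs_res (hGS : GSStatement) (hRES : RESStatement) (d : Bool) (S : Set ℕ) (lo₀ : ℕ) (D : ℝ)
    (hS : InvA d S lo₀) (hD : Tendsto (Gd S) atTop (𝓝 D)) (lo : ℝ → ℕ)
    (hlo : Tendsto lo atTop atTop) (hlo2 : Tendsto (fun u : ℝ => (lo u : ℝ) / √u) atTop (𝓝 0))
    (z : ℝ) (t : ℝ → ℕ) (ht : AsymT z t) (j k c : ℕ) :
    Tendsto (fun u : ℝ => Gd {n : ℕ | n ∈ Fll d S (lo u) (t u) ∧ n ≡ c [MOD 2 ^ j * 3 ^ k]} u)
      atTop (𝓝 (D * PhiG z / (2 ^ j * 3 ^ k))) := by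
  refine hRES d (fun u t' => Fll d S (lo u) t') lo t (D * PhiG z) ?_ ?_ ?_ ?_ j k c
  · filter_upwards [hlo.eventually_ge_atTop lo₀] with u hu
    exact fll_inv (invA_mono hS hu)
  · have h1 : Tendsto (fun u : ℝ => (lo u : ℝ) / √u * (1 / √u)) atTop (𝓝 (0 * 0)) :=
      hlo2.mul (tendsto_const_nhds.div_atTop Real.tendsto_sqrt_atTop)
    rw [mul_zero] at h1
    refine h1.congr' ?_
    filter_upwards [eventually_gt_atTop (0 : ℝ)] with u hu
    rw [div_mul_div_comm, mul_one, Real.mul_self_sqrt hu.le]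
  · have hmu := mu_pos
    have hmu2 := mu_le
    filter_upwards [asym_large' ht 0, eventually_ge_atTop (1 : ℝ)] with u h1 hu
    have h2 : u ^ (1 / 3 : ℝ) ≤ u := by
      nth_rewrite 2 [← Real.rpow_one u]
      exact Real.rpow_le_rpow_of_exponent_le hu (by norm_num)
    have h3 : (0 : ℝ) ≤ t u := Nat.cast_nonneg _
    nlinarith
  · intro h j'
    have h1 : Tendsto (fun u : ℝ => lo (u - h)) atTop atTop := hlo.comp (tendsto_sub_const h)
    have h2 : Tendsto (fun u : ℝ => ((lo (u - h) : ℕ) : ℝ) / √u) atTop (𝓝 0) := by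
      have h3 := hlo2.comp (tendsto_sub_const h)
      have h4 : Tendsto (fun u : ℝ => √(1 - h / u)) atTop (𝓝 1) := by
        have h4 : Tendsto (fun u : ℝ => 1 - h / u) atTop (𝓝 (1 - 0)) :=
          tendsto_const_nhds.sub (tendsto_const_nhds.div_atTop tendsto_id)
        rw [sub_zero] at h4
        simpa using h4.sqrt
      have h5 := h3.mul h4
      rw [zero_mul] at h5
      refine h5.congr' ?_
      filter_upwards [eventually_gt_atTop (0 : ℝ), eventually_gt_atTop h] with u hu hu2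
      simp only [Function.comp_apply]
      have e : 1 - h / u = (u - h) / u := by field_simp
      have hs : √(u - h) ≠ 0 := (Real.sqrt_pos.2 (by linarith)).ne'
      rw [e, Real.sqrt_div (by linarith)]
      field_simp
    have h3 := hGS d S lo₀ D hS hD (fun u => lo (u - h)) h1 h2 z (fun u => t (u - h) - j')
      (asym_shift ht h j')
    have h4 := h3.comp (tendsto_atTop_add_const_right atTop h tendsto_id)
    refine h4.congr fun u => ?_
    simp only [Function.comp_apply, id_eq, add_sub_cancel_right]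

theorem tendsto_gd_squeeze {B₁ B₂ : ℝ → Set ℕ} {W : Set ℕ} {D : ℝ}
    (h₁ : Tendsto (fun u : ℝ => Gd (B₁ u) u) atTop (𝓝 D))
    (h₂ : Tendsto (fun u : ℝ => Gd (B₂ u) u) atTop (𝓝 D))
    (hW : ∀ᶠ u : ℝ in atTop, ∀ N : ℕ, (2 : ℝ) ^ u ≤ N → (N : ℝ) < 2 ^ (u + 1) →
      (N ∈ B₁ u → N ∈ W) ∧ (N ∈ W → N ∈ B₂ u)) :
    Tendsto (Gd W) atTop (𝓝 D) := by
  refine tendsto_of_tendsto_of_tendsto_of_le_of_le' h₁ h₂ ?_ ?_
  · filter_upwards [hW] with u hu
    exact gd_mono fun N a b c => (hu N a b).1 c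
  · filter_upwards [hW] with u hu
    exact gd_mono fun N a b c => (hu N a b).2 c

/-- logarithms in a block -/
theorem log_block {u : ℝ} {n : ℕ} (h1 : (2 : ℝ) ^ u ≤ n) (h2 : (n : ℝ) < 2 ^ (u + 1)) :
    u * Real.log 2 ≤ Real.log n ∧ Real.log n ≤ u * Real.log 2 + Real.log 2 := by
  have h0 : (0 : ℝ) < 2 ^ u := by positivity
  have hn : (0 : ℝ) < n := lt_of_lt_of_le h0 h1
  constructor
  · rw [← Real.log_rpow (by norm_num)]
    exact Real.log_le_log h0 h1
  · have h3 := Real.log_le_log hn h2.le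
    rw [Real.log_rpow (by norm_num)] at h3
    linarith

theorem thr_block (z : ℝ) {u : ℝ} (hu : 0 ≤ u) {n : ℕ} (h1 : (2 : ℝ) ^ u ≤ n)
    (h2 : (n : ℝ) < 2 ^ (u + 1)) : |thr z n - x0 z u| ≤ 1 / mu + |z * bb| := by
  have hmu := mu_pos
  have hl2 : 0 < Real.log 2 := Real.log_pos (by norm_num)
  have hl1 : Real.log 2 ≤ 1 := by have := Real.log_two_lt_d9; linarith
  obtain ⟨a, b⟩ := log_block h1 h2
  unfold thr x0
  rw [nu_eq]
  have e : Real.log n / (mu * Real.log 2) + z * bb * √(Real.log n) -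
      (u / mu + z * bb * √(Real.log 2) * √u) =
      (Real.log n - u * Real.log 2) / (mu * Real.log 2) +
        z * bb * (√(Real.log n) - √(u * Real.log 2)) := by
    rw [Real.sqrt_mul hu]
    field_simp
    ring
  rw [e]
  refine (abs_add_le _ _).trans (add_le_add ?_ ?_)
  · rw [abs_of_nonneg (div_nonneg (by linarith) (by positivity)), div_le_div_iff₀ (by positivity)
      hmu]
    nlinarith
  · rw [abs_mul]
    apply mul_le_of_le_one_right (abs_nonneg _)
    have h3 : √(u * Real.log 2) ≤ √(Real.log n) := Real.sqrt_le_sqrt a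
    rw [abs_of_nonneg (by linarith)]
    have h4 : √(Real.log n) ≤ √(u * Real.log 2) + 1 := by
      apply Real.sqrt_le_iff.2
      refine ⟨by positivity, ?_⟩
      have h5 : √(u * Real.log 2) ^ 2 = u * Real.log 2 := Real.sq_sqrt (by positivity)
      nlinarith [Real.sqrt_nonneg (u * Real.log 2)]
    linarith

theorem tendsto_x0 (z : ℝ) : Tendsto (x0 z) atTop atTop := by
  have hmu := mu_pos
  have h1 : Tendsto (fun u : ℝ => √u * (√u / mu + z * bb * √(Real.log 2))) atTop atTop := by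
    apply Real.tendsto_sqrt_atTop.atTop_mul_atTop₀
    exact tendsto_atTop_add_const_right atTop _ (Real.tendsto_sqrt_atTop.atTop_div_const hmu)
  refine h1.congr' ?_
  filter_upwards [eventually_ge_atTop (0 : ℝ)] with u hu
  unfold x0
  rw [mul_add, mul_div_assoc', Real.mul_self_sqrt hu]
  ring

theorem asym_floor (z K : ℝ) : AsymT z (fun u => ⌊x0 z u + K⌋₊) := by
  apply asym_of_bdd (K := |K| + 1)
  filter_upwards [(tendsto_x0 z).eventually_ge_atTop |K|] with u hu
  have h0 : 0 ≤ x0 z u + K := by linarith [neg_abs_le K]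
  have h1 := Nat.floor_le h0
  have h2 := Nat.lt_floor_add_one (x0 z u + K)
  rw [abs_le]
  constructor
  · linarith [neg_abs_le K]
  · linarith [le_abs_self K]

/-- DG. -/
theorem dg (hGS : GSStatement) (hRES : RESStatement) : DGStatement := by
  intro d S lo₀ D hS hD g hg hg2 z j k c
  have hGd := tendsto_gd_of_hasDensN hD
  have hmu := mu_pos
  have hl2 : 0 < Real.log 2 := Real.log_pos (by norm_num)
  -- the lower heights
  obtain ⟨lo₁, l1, l2, l3⟩ := diag (P := fun a u => ∀ n : ℕ, (2 : ℝ) ^ u ≤ n → (2 : ℝ) ^ a ≤ g n)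
    (fun a => ev_block (hg.eventually_ge_atTop ((2 : ℝ) ^ a))) tendsto_quarter
  have l4 : Tendsto (fun u : ℝ => (lo₁ u : ℝ) / √u) atTop (𝓝 0) := by
    refine squeeze_zero' (Eventually.of_forall fun u => by positivity) ?_ quarter_div_sqrt
    filter_upwards [eventually_gt_atTop (0 : ℝ)] with u hu
    apply div_le_div_of_nonneg_right _ (Real.sqrt_nonneg _)
    calc (lo₁ u : ℝ) ≤ (⌊u ^ (1 / 4 : ℝ)⌋₊ : ℝ) := by exact_mod_cast l3 u
      _ ≤ u ^ (1 / 4 : ℝ) := Nat.floor_le (by positivity)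
  -- the upper heights
  obtain ⟨m, m1, m2, m3⟩ := diag
    (P := fun m u => ∀ n : ℕ, (2 : ℝ) ^ u ≤ n → Real.log (g n) ≤ √(Real.log n) / (m + 1))
    (fun m => by
      apply ev_block
      have h1 : ∀ᶠ n : ℕ in atTop, Real.log (g n) / √(Real.log n) ≤ 1 / ((m : ℝ) + 1) :=
        hg2.eventually_le_const (by positivity)
      filter_upwards [h1, eventually_ge_atTop 2] with n hn hn2
      have h2 : 0 < Real.log n := Real.log_pos (by exact_mod_cast hn2)
      rw [div_le_iff₀ (Real.sqrt_pos.2 h2)] at hn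
      rw [div_eq_mul_one_div, mul_comm]
      exact hn) tendsto_quarter
  set lo₂ : ℝ → ℕ := fun u => ⌈2 * √u / (m u + 1)⌉₊ with hlo₂
  have n1 : Tendsto lo₂ atTop atTop := by
    have h1 : Tendsto (fun u : ℝ => 2 * √u / ((m u : ℝ) + 1)) atTop atTop := by
      refine tendsto_atTop_mono' atTop ?_ (tendsto_rpow_atTop (by norm_num : (0 : ℝ) < 1 / 4))
      filter_upwards [eventually_ge_atTop (1 : ℝ)] with u hu
      have hq : 1 ≤ u ^ (1 / 4 : ℝ) := Real.one_le_rpow hu (by norm_num)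
      have h2 : (m u : ℝ) ≤ u ^ (1 / 4 : ℝ) := by
        calc (m u : ℝ) ≤ (⌊u ^ (1 / 4 : ℝ)⌋₊ : ℝ) := by exact_mod_cast m3 u
          _ ≤ u ^ (1 / 4 : ℝ) := Nat.floor_le (by positivity)
      have h3 : √u = u ^ (1 / 4 : ℝ) * u ^ (1 / 4 : ℝ) := by
        rw [Real.sqrt_eq_rpow, ← Real.rpow_add (by linarith)]; norm_num
      rw [h3, le_div_iff₀ (by positivity)]
      nlinarith
    exact tendsto_nat_ceil_atTop.comp h1
  have n2 : Tendsto (fun u : ℝ => (lo₂ u : ℝ) / √u) atTop (𝓝 0) := by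
    have h1 : Tendsto (fun u : ℝ => 2 / ((m u : ℝ) + 1) + 1 / √u) atTop (𝓝 (0 + 0)) := by
      apply Tendsto.add
      · apply tendsto_const_nhds.div_atTop
        exact tendsto_atTop_add_const_right atTop _ (tendsto_natCast_atTop_atTop.comp m1)
      · exact tendsto_const_nhds.div_atTop Real.tendsto_sqrt_atTop
    rw [add_zero] at h1
    refine squeeze_zero' (Eventually.of_forall fun u => by positivity) ?_ h1
    filter_upwards [eventually_gt_atTop (0 : ℝ)] with u hu
    have hs : 0 < √u := Real.sqrt_pos.2 hu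
    have h2 : (lo₂ u : ℝ) ≤ 2 * √u / (m u + 1) + 1 := (Nat.ceil_lt_add_one (by positivity)).le
    calc (lo₂ u : ℝ) / √u ≤ (2 * √u / (m u + 1) + 1) / √u :=
          div_le_div_of_nonneg_right h2 hs.le
      _ = 2 / ((m u : ℝ) + 1) + 1 / √u := by field_simp
  set K : ℝ := 1 / mu + |z * bb| with hK
  have c1 := gs_res hGS hRES d S lo₀ D hS hGd lo₁ l1 l4 z _ (asym_floor z (-K)) j k c
  have c2 := gs_res hGS hRES d S lo₀ D hS hGd lo₂ n1 n2 z _ (asym_floor z K) j k c
  have e : D / (2 ^ j * 3 ^ k) * PhiG z = D * PhiG z / (2 ^ j * 3 ^ k) := by ring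
  rw [e]
  apply hasDensN_of_blocks
  refine tendsto_gd_squeeze c1 c2 ?_
  filter_upwards [l2, m2, eventually_ge_atTop (1 : ℝ), (tendsto_x0 z).eventually_ge_atTop K]
    with u h1 h2 hu hx N hN1 hN2
  have hthr := abs_le.1 (thr_block z (by linarith : (0 : ℝ) ≤ u) hN1 hN2)
  constructor
  · rintro ⟨⟨hNS, t, ht, htlo⟩, hc⟩
    refine ⟨hNS, hc, t, ?_, ?_⟩
    · have h3 : (t : ℝ) ≤ (⌊x0 z u + -K⌋₊ : ℝ) := by exact_mod_cast ht
      have h4 := Nat.floor_le (by linarith : 0 ≤ x0 z u + -K)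
      linarith [hthr.1]
    · have h3 : (((T d)^[t] N : ℕ) : ℝ) < 2 ^ lo₁ u := by exact_mod_cast htlo
      exact lt_of_lt_of_le h3 (h1 N hN1)
  · rintro ⟨hNS, hc, t, ht, htg⟩
    refine ⟨⟨hNS, t, ?_, ?_⟩, hc⟩
    · apply Nat.le_floor
      linarith [hthr.2]
    · have hg0 : 0 < g N := lt_of_le_of_lt (Nat.cast_nonneg _) htg
      have h3 := h2 N hN1
      have h4 : g N ≤ 2 ^ lo₂ u := by
        have h5 : Real.log (g N) ≤ lo₂ u * Real.log 2 := by
          refine h3.trans ?_
          have h6 : 2 * √u / (m u + 1) ≤ lo₂ u := Nat.le_ceil _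
          have h7 : √(Real.log N) ≤ 2 * √u * Real.log 2 := by
            apply Real.sqrt_le_iff.2
            refine ⟨by positivity, ?_⟩
            have h8 : (2 * √u * Real.log 2) ^ 2 = 4 * u * Real.log 2 ^ 2 := by
              rw [mul_pow, mul_pow, Real.sq_sqrt (by linarith)]; ring
            rw [h8]
            have h9 := (log_block hN1 hN2).2
            have h10 : (69 : ℝ) / 100 ≤ Real.log 2 := by have := Real.log_two_gt_d9; linarith
            nlinarith
          calc √(Real.log N) / (m u + 1) ≤ 2 * √u * Real.log 2 / (m u + 1) :=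
                div_le_div_of_nonneg_right h7 (by positivity)
            _ = 2 * √u / (m u + 1) * Real.log 2 := by ring
            _ ≤ lo₂ u * Real.log 2 := mul_le_mul_of_nonneg_right h6 hl2.le
        rw [← Real.log_pow] at h5
        exact (Real.log_le_log_iff hg0 (by positivity)).1 h5
      have h5 : (((T d)^[t] N : ℕ) : ℝ) < 2 ^ lo₂ u := lt_of_lt_of_le htg h4
      exact_mod_cast h5

end Pool.Agent.Lib.MP_edb5be_nt.TS.H52
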