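import Pool.Agent.Lib.MP_edb5be_nt.TS.IfaceF
import Pool.Agent.Lib.MP_edb5be_nt.TS.H58.Basic
import Pool.Agent.Lib.MP_edb5be_nt.TS.H52.Dg

/-!
Project TS (MP_edb5be_nt), module DW: the joint law of the path and of the total stopping time,
natural density (from the law in blocks).
-/

set_option autoImplicit false

namespace Pool.Agent.Lib.MP_edb5be_nt.TS.H52

open Finset Pool.Agent.Lib.MP_0a5adf_nt.TP Pool.Agent.Lib.MP_edb5be_nt.ND
  Pool.Agent.Lib.MP_edb5be_nt.ND.H82 Filter Topology
open Pool.Agent.Lib.MP_edb5be_nt.TS.H58 (lg lg_iter2 iter_pos lg_of_mem Gd_union Gd_nonneg)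

theorem sqrt_diff {a b c : ℝ} (hb : 0 ≤ b) (hba : b ≤ a) (hac : a ≤ b + c) :
    √b ≤ √a ∧ √a ≤ √b + √c := by
  have hc : 0 ≤ c := by linarith
  refine ⟨Real.sqrt_le_sqrt hba, ?_⟩
  apply Real.sqrt_le_iff.2
  refine ⟨by positivity, ?_⟩
  have h1 := Real.sq_sqrt hb
  have h2 := Real.sq_sqrt hc
  nlinarith [Real.sqrt_nonneg b, Real.sqrt_nonneg c, mul_nonneg (Real.sqrt_nonneg b)
    (Real.sqrt_nonneg c)]

theorem abs_sqrt_diff {a b c : ℝ} (ha : 0 ≤ a) (hb : 0 ≤ b) (h : |a - b| ≤ c) :
    |√a - √b| ≤ √c := by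
  rw [abs_le] at h ⊢
  rcases le_total a b with h1 | h1
  · have := sqrt_diff (c := c) ha h1 (by linarith)
    constructor <;> linarith [Real.sqrt_nonneg c]
  · have := sqrt_diff (c := c) hb h1 (by linarith)
    constructor <;> linarith [Real.sqrt_nonneg c]

theorem tendsto_bdd_div_sqrt {f : ℝ → ℝ} {C : ℝ} (h : ∀ᶠ u : ℝ in atTop, |f u| ≤ C) :
    Tendsto (fun u : ℝ => f u / √u) atTop (𝓝 0) := by
  have h1 : Tendsto (fun u : ℝ => C / √u) atTop (𝓝 0) :=
    tendsto_const_nhds.div_atTop Real.tendsto_sqrt_atTop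
  refine squeeze_zero_norm' ?_ h1
  filter_upwards [h] with u hu
  rw [Real.norm_eq_abs, abs_div, abs_of_nonneg (Real.sqrt_nonneg u)]
  exact div_le_div_of_nonneg_right hu (Real.sqrt_nonneg u)

/-- the fixed times -/
noncomputable def kk (s : ℕ → ℝ) (i : ℕ) (u : ℝ) : ℕ := ⌊s i * (u * Real.log 2)⌋₊

theorem bb_pos : 0 < bb := by
  unfold bb
  have h1 : 0 < nu := by
    rw [nu_eq]
    exact mul_pos mu_pos (Real.log_pos (by norm_num))
  have h3 : 0 < Real.log 3 := Real.log_pos (by norm_num)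
  positivity

theorem nu_pos : 0 < nu := by
  rw [nu_eq]
  exact mul_pos mu_pos (Real.log_pos (by norm_num))

/-- Few numbers reach `W` before the last fixed time. -/
theorem early (hG : GBStatement) (d : Bool) (W : Set ℕ) (D : ℝ) (hW : W.Finite)
    (hD : Tendsto (Gd (Hit d W)) atTop (𝓝 D)) (s : ℕ → ℝ) (r : ℕ) (hs : nu * s r < 1) :
    Tendsto (fun u : ℝ => Gd (Rch d W (kk s r u)) u) atTop (𝓝 0) := by
  have hmu := mu_pos
  have hl2 : 0 < Real.log 2 := Real.log_pos (by norm_num)
  have hb := bb_pos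
  -- PhiG is small far to the left
  rw [Metric.tendsto_nhds]
  intro ε hε
  have h1 : Tendsto (fun z : ℝ => D * PhiG z) atBot (𝓝 (D * 0)) :=
    tendsto_PhiG_atBot.const_mul D
  rw [mul_zero] at h1
  obtain ⟨z, hz⟩ := (h1.eventually_lt_const hε).exists
  have h2 := hG d W D hW hD z (fun u => ⌊x0 z u + 0⌋₊) (asym_floor z 0)
  have h3 := h2.eventually_lt_const hz
  -- comparison of the times
  have h4 : Tendsto (fun u : ℝ => √u * (√u * (1 / mu - s r * Real.log 2) +
      z * bb * √(Real.log 2))) atTop atTop := by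
    apply Real.tendsto_sqrt_atTop.atTop_mul_atTop₀
    apply tendsto_atTop_add_const_right
    apply Real.tendsto_sqrt_atTop.atTop_mul_const
    rw [sub_pos, lt_div_iff₀ hmu]
    rw [nu_eq] at hs
    linarith
  filter_upwards [h3, h4.eventually_ge_atTop 0, eventually_ge_atTop (0 : ℝ)] with u h3 h4 hu
  rw [Real.dist_eq, sub_zero, abs_of_nonneg (Gd_nonneg _ _)]
  refine lt_of_le_of_lt (gd_mono fun N _ _ hN => ?_) h3
  obtain ⟨k, hk, hkW⟩ := hN
  refine ⟨k, hk.trans ?_, hkW⟩
  unfold kk
  apply Nat.floor_mono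
  unfold x0
  have h5 : √u * (√u * (1 / mu - s r * Real.log 2) + z * bb * √(Real.log 2)) =
      u / mu - s r * (u * Real.log 2) + z * bb * √(Real.log 2) * √u := by
    have : √u * √u = u := Real.mul_self_sqrt hu
    calc √u * (√u * (1 / mu - s r * Real.log 2) + z * bb * √(Real.log 2)) =
        (√u * √u) * (1 / mu - s r * Real.log 2) + z * bb * √(Real.log 2) * √u := by ring
      _ = u / mu - s r * (u * Real.log 2) + z * bb * √(Real.log 2) * √u := by rw [this]; ring
  rw [h5] at h4
  linarith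

/-- the law in blocks for thresholds with bounded changes -/
theorem blocks (hF : FDDStatement) (d : Bool) (W : Set ℕ) (D : ℝ) (hW : W.Finite)
    (hD : Tendsto (Gd (Hit d W)) atTop (𝓝 D)) (r : ℕ) (s z : ℕ → ℝ) (hs0 : s 0 = 0)
    (hs : ∀ i < r, s i < s (i + 1)) (hsr : nu * s r < 1) (j k a : ℕ) (Cy : ℕ → ℝ) (Cc : ℝ) :
    Tendsto (fun u : ℝ =>
      Gd {n : ℕ | n ∈ PathB d W r (fun i => kk s i u)
        (fun i => -(mu * ((s (i + 1) - s i) * (u * Real.log 2))) +
          z i * (th / 2) * √((s (i + 1) - s i) * (u * Real.log 2)) + Cy i)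
        (z r * bb * √((1 - nu * s r) * (u * Real.log 2)) + Cc) ∧
        n ≡ a [MOD 2 ^ j * 3 ^ k]} u) atTop
      (𝓝 (D / (2 ^ j * 3 ^ k) * ∏ i ∈ range (r + 1), PhiG (z i))) := by
  have hmu := mu_pos
  have hnu := nu_pos
  have hl2 : 0 < Real.log 2 := Real.log_pos (by norm_num)
  have hth := th_pos
  have hsnn : ∀ i ≤ r, 0 ≤ s i := by
    intro i
    induction i with
    | zero => intro _; rw [hs0]
    | succ i ih => intro hi; exact (ih (by omega)).trans (hs i (by omega)).le
  have hkb : ∀ i ≤ r, ∀ u : ℝ, 0 ≤ u → (kk s i u : ℝ) ≤ s i * (u * Real.log 2) ∧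
      s i * (u * Real.log 2) < kk s i u + 1 := by
    intro i hi u hu
    exact ⟨Nat.floor_le (by have := hsnn i hi; positivity), Nat.lt_floor_add_one _⟩
  refine hF d W D hW hD r (fun i => 1 - nu * s i) z (by simp [hs0]) ?_ (by simpa using hsr)
    (fun i u => kk s i u) (fun i u => -(mu * ((s (i + 1) - s i) * (u * Real.log 2))) +
          z i * (th / 2) * √((s (i + 1) - s i) * (u * Real.log 2)) + Cy i)
    (fun u => z r * bb * √((1 - nu * s r) * (u * Real.log 2)) + Cc) ?_ ?_ ?_ ?_ ?_ j k a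
  · intro i hi
    have := mul_lt_mul_of_pos_left (hs i hi) hnu
    linarith
  · intro u
    simp [kk, hs0]
  · intro i hi u
    unfold kk
    rcases le_or_gt 0 u with hu | hu
    · apply Nat.floor_mono
      exact mul_le_mul_of_nonneg_right (hs i hi).le (by positivity)
    · have h1 : s i * (u * Real.log 2) ≤ 0 := by
        apply mul_nonpos_of_nonneg_of_nonpos (hsnn i hi.le)
        exact mul_nonpos_of_nonpos_of_nonneg hu.le hl2.le
      rw [Nat.floor_of_nonpos h1]
      exact Nat.zero_le _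
  · refine ⟨mu, fun i hi => ?_⟩
    filter_upwards [eventually_ge_atTop (1 : ℝ)] with u hu
    obtain ⟨h1, h2⟩ := hkb i hi u (by linarith)
    have e : u - mu * kk s i u - (1 - nu * s i) * u = mu * (s i * (u * Real.log 2) - kk s i u) := by
      rw [nu_eq]; ring
    rw [e, abs_mul, abs_of_pos hmu, abs_of_nonneg (by linarith)]
    apply mul_le_mul_of_nonneg_left _ hmu.le
    have : 1 ≤ √u := Real.one_le_sqrt.2 hu
    linarith
  · intro i hi
    apply tendsto_bdd_div_sqrt (C := mu + |z i * (th / 2)| + |Cy i|)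
    filter_upwards [eventually_ge_atTop (0 : ℝ)] with u hu
    obtain ⟨h1, h2⟩ := hkb i hi.le u hu
    obtain ⟨h3, h4⟩ := hkb (i + 1) (by omega) u hu
    have hmono : (kk s i u : ℝ) ≤ kk s (i + 1) u := by
      have : kk s i u ≤ kk s (i + 1) u := by
        unfold kk
        apply Nat.floor_mono
        exact mul_le_mul_of_nonneg_right (hs i hi).le (by positivity)
      exact_mod_cast this
    have h5 : |(s (i + 1) - s i) * (u * Real.log 2) - ((kk s (i + 1) u : ℝ) - kk s i u)| ≤ 1 := by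
      rw [sub_mul, abs_le]
      constructor <;> linarith
    have h6 := abs_sqrt_diff (by
      have := sub_pos.2 (hs i hi)
      positivity) (sub_nonneg.2 hmono) h5
    rw [Real.sqrt_one] at h6
    have e : -(mu * ((s (i + 1) - s i) * (u * Real.log 2))) +
        z i * (th / 2) * √((s (i + 1) - s i) * (u * Real.log 2)) + Cy i +
        mu * ((kk s (i + 1) u : ℝ) - kk s i u) -
        z i * (th / 2) * √((kk s (i + 1) u : ℝ) - kk s i u) =
        (-(mu * ((s (i + 1) - s i) * (u * Real.log 2) - ((kk s (i + 1) u : ℝ) - kk s i u))) +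
        z i * (th / 2) * (√((s (i + 1) - s i) * (u * Real.log 2)) -
          √((kk s (i + 1) u : ℝ) - kk s i u))) + Cy i := by ring
    rw [e]
    refine (abs_add_le _ _).trans (add_le_add ((abs_add_le _ _).trans (add_le_add ?_ ?_)) le_rfl)
    · rw [abs_neg, abs_mul, abs_of_pos hmu]
      exact mul_le_of_le_one_right hmu.le h5
    · rw [abs_mul]
      exact mul_le_of_le_one_right (abs_nonneg _) h6
  · apply tendsto_bdd_div_sqrt (C := mu * |Cc|)
    filter_upwards [eventually_ge_atTop (0 : ℝ)] with u hu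
    have e : mu * (z r * bb * √((1 - nu * s r) * (u * Real.log 2)) + Cc) -
        z r * (th / 2) * √((1 - nu * s r) * u / mu) = mu * Cc := by
      have h1 : √((1 - nu * s r) * (u * Real.log 2)) =
          √((1 - nu * s r) * u) * √(Real.log 2) := by
        rw [← mul_assoc, Real.sqrt_mul]
        have : 0 < 1 - nu * s r := by linarith
        positivity
      have h2 : √((1 - nu * s r) * u / mu) = √((1 - nu * s r) * u) * (√mu)⁻¹ := by
        rw [Real.sqrt_div, div_eq_mul_inv]
        have : 0 < 1 - nu * s r := by linarith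
        positivity
      rw [h1, h2]
      have h3 := bb_eq
      calc mu * (z r * bb * (√((1 - nu * s r) * u) * √(Real.log 2)) + Cc) -
          z r * (th / 2) * (√((1 - nu * s r) * u) * (√mu)⁻¹) =
          z r * √((1 - nu * s r) * u) * (mu * bb * √(Real.log 2) - th / 2 * (√mu)⁻¹) +
            mu * Cc := by ring
        _ = mu * Cc := by rw [h3]; ring
    rw [e, abs_mul, abs_of_pos hmu]

theorem log_eq (x : ℝ) : Real.log x = Real.log 2 * Real.logb 2 x := by
  have hl2 : 0 < Real.log 2 := Real.log_pos (by norm_num)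
  rw [Real.logb]
  field_simp

theorem log_div_nu (x : ℝ) : Real.log x / nu = Real.logb 2 x / mu := by
  have hl2 : 0 < Real.log 2 := Real.log_pos (by norm_num)
  have hmu := mu_pos
  rw [nu_eq, log_eq]
  field_simp

theorem log3_eq : Real.log 3 = th * Real.log 2 := by
  have hl2 : 0 < Real.log 2 := Real.log_pos (by norm_num)
  unfold th
  rw [Real.logb]
  field_simp

/-- the bound for the difference of the times -/
noncomputable def qq (s : ℕ → ℝ) (r : ℕ) : ℕ := ⌈s r * Real.log 2⌉₊ + 1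

theorem times {s : ℕ → ℝ} {r i : ℕ} (hi0 : 0 ≤ s i) (hir : s i ≤ s r) {u : ℝ} (hu : 0 ≤ u)
    {n : ℕ} (h1 : (2 : ℝ) ^ u ≤ n) (h2 : (n : ℝ) < 2 ^ (u + 1)) :
    kk s i u ≤ ⌊s i * Real.log n⌋₊ ∧ ⌊s i * Real.log n⌋₊ ≤ kk s i u + qq s r := by
  have hl2 : 0 < Real.log 2 := Real.log_pos (by norm_num)
  obtain ⟨a, b⟩ := log_block h1 h2
  constructor
  · unfold kk
    apply Nat.floor_mono
    exact mul_le_mul_of_nonneg_left a hi0
  · have h0 : 0 ≤ s i * Real.log n := mul_nonneg hi0 (le_trans (by positivity) a)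
    have h3 := Nat.floor_le h0
    have h4 : s i * Real.log n ≤ s i * (u * Real.log 2) + s r * Real.log 2 := by
      calc s i * Real.log n ≤ s i * (u * Real.log 2 + Real.log 2) :=
            mul_le_mul_of_nonneg_left b hi0
        _ = s i * (u * Real.log 2) + s i * Real.log 2 := by ring
        _ ≤ s i * (u * Real.log 2) + s r * Real.log 2 := by
            have := mul_le_mul_of_nonneg_right hir hl2.le
            linarith
    have h5 : s i * (u * Real.log 2) < kk s i u + 1 := Nat.lt_floor_add_one _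
    have h6 : s r * Real.log 2 ≤ ⌈s r * Real.log 2⌉₊ := Nat.le_ceil _
    have h7 : (⌊s i * Real.log n⌋₊ : ℝ) < kk s i u + qq s r := by
      unfold qq
      push_cast
      linarith
    exact_mod_cast h7.le

/-- the constants -/
noncomputable def cy (s z : ℕ → ℝ) (r i : ℕ) : ℝ :=
  2 * qq s r + mu * ((s (i + 1) - s i) * Real.log 2) +
    |z i * (th / 2)| * √((s (i + 1) - s i) * Real.log 2)

noncomputable def cc (s z : ℕ → ℝ) (r : ℕ) : ℝ :=
  qq s r + qq s r / mu + |z r * bb| * √((1 - nu * s r) * Real.log 2)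

theorem mul_sqrt_diff {c a b x : ℝ} (ha : 0 ≤ a) (hb : 0 ≤ b) (h : |a - b| ≤ x) :
    |c * √a - c * √b| ≤ |c| * √x := by
  rw [← mul_sub, abs_mul]
  exact mul_le_mul_of_nonneg_left (abs_sqrt_diff ha hb h) (abs_nonneg _)

theorem compare (d : Bool) (W : Set ℕ) (r : ℕ) (s z : ℕ → ℝ) (hs0 : s 0 = 0)
    (hs : ∀ i < r, s i < s (i + 1)) (hsr : nu * s r < 1) {u : ℝ} (hu : 0 ≤ u)
    {n : ℕ} (h1 : (2 : ℝ) ^ u ≤ n) (h2 : (n : ℝ) < 2 ^ (u + 1)) :
    (n ∈ PathB d W r (fun i => kk s i u)
        (fun i => -(mu * ((s (i + 1) - s i) * (u * Real.log 2))) +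
          z i * (th / 2) * √((s (i + 1) - s i) * (u * Real.log 2)) + -cy s z r i)
        (z r * bb * √((1 - nu * s r) * (u * Real.log 2)) + -cc s z r) → PathC d W r s z n) ∧
    (PathC d W r s z n → n ∈ PathB d W r (fun i => kk s i u)
        (fun i => -(mu * ((s (i + 1) - s i) * (u * Real.log 2))) +
          z i * (th / 2) * √((s (i + 1) - s i) * (u * Real.log 2)) + cy s z r i)
        (z r * bb * √((1 - nu * s r) * (u * Real.log 2)) + cc s z r) ∨
      n ∈ Rch d W (kk s r u)) := by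
  have hmu := mu_pos
  have hnu := nu_pos
  have hl2 : 0 < Real.log 2 := Real.log_pos (by norm_num)
  have hth := th_pos
  have hsnn : ∀ i ≤ r, 0 ≤ s i := by
    intro i
    induction i with
    | zero => intro _; rw [hs0]
    | succ i ih => intro hi; exact (ih (by omega)).trans (hs i (by omega)).le
  have hsle : ∀ m i, i + m = r → s i ≤ s r := by
    intro m
    induction m with
    | zero => intro i hi; rw [← hi, add_zero]
    | succ m ih => intro i hi; exact (hs i (by omega)).le.trans (ih (i + 1) (by omega))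
  have hsr' : ∀ i ≤ r, s i ≤ s r := fun i hi => hsle (r - i) i (by omega)
  obtain ⟨la, lb⟩ := log_block h1 h2
  set l := Real.log n with hl
  have hu2 : 0 ≤ u * Real.log 2 := by positivity
  have hl0 : 0 ≤ l := hu2.trans la
  have hn0 := (lg_of_mem h1 h2).1
  set Q : ℝ := (qq s r : ℝ) with hQ
  have hQ0 : 0 ≤ Q := Nat.cast_nonneg _
  -- heights at the two times
  have hh : ∀ i ≤ r, |Real.logb 2 ((T d)^[⌊s i * l⌋₊] n) - Real.logb 2 ((T d)^[kk s i u] n)| ≤ Q := by
    intro i hi
    obtain ⟨t1, t2⟩ := times (hsnn i hi) (hsr' i hi) hu h1 h2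
    rw [← hl] at t1 t2
    have h3 := lg_iter2 (d := d) hn0 t1
    have h4 : ((⌊s i * l⌋₊ - kk s i u : ℕ) : ℝ) ≤ Q := by
      have : ⌊s i * l⌋₊ - kk s i u ≤ qq s r := by omega
      rw [hQ]
      exact_mod_cast this
    exact h3.trans h4
  have hkt : ∀ i ≤ r, (kk s i u : ℝ) ≤ (⌊s i * l⌋₊ : ℝ) ∧
      (⌊s i * l⌋₊ : ℝ) ≤ (kk s i u : ℝ) + Q := by
    intro i hi
    obtain ⟨t1, t2⟩ := times (hsnn i hi) (hsr' i hi) hu h1 h2
    rw [← hl] at t1 t2
    exact ⟨by exact_mod_cast t1, by rw [hQ]; exact_mod_cast t2⟩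
  -- the square roots
  have hsq : ∀ i < r, |z i * (th / 2) * √((s (i + 1) - s i) * l) -
      z i * (th / 2) * √((s (i + 1) - s i) * (u * Real.log 2))| ≤
      |z i * (th / 2)| * √((s (i + 1) - s i) * Real.log 2) := by
    intro i hi
    have hd := sub_pos.2 (hs i hi)
    apply mul_sqrt_diff (by positivity) (by positivity)
    rw [← mul_sub, abs_mul, abs_of_pos hd, abs_of_nonneg (by linarith)]
    exact mul_le_mul_of_nonneg_left (by linarith) hd.le
  have hsc : |z r * bb * √((1 - nu * s r) * l) - z r * bb * √((1 - nu * s r) * (u * Real.log 2))| ≤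
      |z r * bb| * √((1 - nu * s r) * Real.log 2) := by
    have hd : 0 < 1 - nu * s r := by linarith
    apply mul_sqrt_diff (by positivity) (by positivity)
    rw [← mul_sub, abs_mul, abs_of_pos hd, abs_of_nonneg (by linarith)]
    exact mul_le_mul_of_nonneg_left (by linarith) hd.le
  -- linear terms
  have hlin : ∀ i < r, mu * ((s (i + 1) - s i) * (u * Real.log 2)) ≤ mu * ((s (i + 1) - s i) * l) ∧
      mu * ((s (i + 1) - s i) * l) ≤ mu * ((s (i + 1) - s i) * (u * Real.log 2)) +
        mu * ((s (i + 1) - s i) * Real.log 2) := by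
    intro i hi
    have hd := (sub_pos.2 (hs i hi)).le
    constructor
    · exact mul_le_mul_of_nonneg_left (mul_le_mul_of_nonneg_left la hd) hmu.le
    · have h3 := mul_le_mul_of_nonneg_left (mul_le_mul_of_nonneg_left lb hd) hmu.le
      rw [mul_add, mul_add] at h3
      exact h3
  -- the condition of PathC in base 2
  have hC : ∀ i < r, (Real.log ((T d)^[⌊s (i + 1) * l⌋₊] n) - Real.log ((T d)^[⌊s i * l⌋₊] n) +
      nu * (s (i + 1) - s i) * l ≤ z i * (Real.log 3 / 2) * √((s (i + 1) - s i) * l)) ↔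
      (Real.logb 2 ((T d)^[⌊s (i + 1) * l⌋₊] n) - Real.logb 2 ((T d)^[⌊s i * l⌋₊] n) +
      mu * ((s (i + 1) - s i) * l) ≤ z i * (th / 2) * √((s (i + 1) - s i) * l)) := by
    intro i _
    rw [log_eq (((T d)^[⌊s (i + 1) * l⌋₊] n : ℕ) : ℝ), log_eq (((T d)^[⌊s i * l⌋₊] n : ℕ) : ℝ),
      nu_eq, log3_eq]
    rw [← mul_le_mul_iff_right₀ hl2 (b := Real.logb 2 ((T d)^[⌊s (i + 1) * l⌋₊] n) -
      Real.logb 2 ((T d)^[⌊s i * l⌋₊] n) + mu * ((s (i + 1) - s i) * l))]
    constructor
    · intro h; linarith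
    · intro h; linarith
  constructor
  · rintro ⟨p1, t, ht, htW⟩
    refine ⟨fun i hi => (hC i hi).2 ?_, kk s r u + t, ?_, htW⟩
    · have a1 := p1 i hi
      have a2 := abs_le.1 (hh i hi.le)
      have a3 := abs_le.1 (hh (i + 1) (by omega))
      have a4 := abs_le.1 (hsq i hi)
      have a5 := (hlin i hi).2
      simp only [cy] at a1
      linarith [a2.1, a2.2, a3.1, a3.2, a4.1, a4.2]
    · rw [log_div_nu]
      have a2 := abs_le.1 (hh r le_rfl)
      have a4 := abs_le.1 hsc
      have a6 := hkt r le_rfl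
      have a7 : Real.logb 2 ((T d)^[kk s r u] n) / mu ≤
          Real.logb 2 ((T d)^[⌊s r * l⌋₊] n) / mu + Q / mu := by
        rw [← add_div]
        apply div_le_div_of_nonneg_right _ hmu.le
        linarith [a2.1]
      simp only [cc] at ht
      push_cast
      linarith [a4.1, a4.2, a6.1]
  · rintro ⟨p1, t, ht, htW⟩
    rcases le_or_gt (kk s r u) t with hkr | hkr
    · left
      refine ⟨fun i hi => ?_, t - kk s r u, ?_, ?_⟩
      · have a1 := (hC i hi).1 (p1 i hi)
        have a2 := abs_le.1 (hh i hi.le)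
        have a3 := abs_le.1 (hh (i + 1) (by omega))
        have a4 := abs_le.1 (hsq i hi)
        have a5 := (hlin i hi).1
        have a8 : 0 ≤ mu * ((s (i + 1) - s i) * Real.log 2) := by
          have := sub_pos.2 (hs i hi)
          positivity
        simp only [cy]
        linarith [a2.1, a2.2, a3.1, a3.2, a4.1, a4.2]
      · rw [log_div_nu] at ht
        have a2 := abs_le.1 (hh r le_rfl)
        have a4 := abs_le.1 hsc
        have a6 := hkt r le_rfl
        have a7 : Real.logb 2 ((T d)^[⌊s r * l⌋₊] n) / mu ≤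
            Real.logb 2 ((T d)^[kk s r u] n) / mu + Q / mu := by
          rw [← add_div]
          apply div_le_div_of_nonneg_right _ hmu.le
          linarith [a2.2]
        rw [Nat.cast_sub hkr]
        simp only [cc]
        linarith [a4.1, a4.2, a6.2]
      · rw [Nat.add_sub_cancel' hkr]
        exact htW
    · right
      exact ⟨t, hkr.le, htW⟩

/-- DW. -/
theorem dw (hF : FDDStatement) (hG : GBStatement) : DWStatement := by
  intro d W D hW hD r s z hs0 hs hsr j k a
  have hGd := tendsto_gd_of_hasDensN hD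
  have b1 := blocks hF d W D hW hGd r s z hs0 hs hsr j k a (fun i => -cy s z r i) (-cc s z r)
  have b2 := blocks hF d W D hW hGd r s z hs0 hs hsr j k a (fun i => cy s z r i) (cc s z r)
  have b3 := early hG d W D hW hGd s r hsr
  have b4 := b2.add b3
  rw [add_zero] at b4
  apply hasDensN_of_blocks
  refine tendsto_of_tendsto_of_tendsto_of_le_of_le' b1 b4 ?_ ?_
  · filter_upwards [eventually_ge_atTop (0 : ℝ)] with u hu
    refine gd_mono fun N h1 h2 hN => ?_
    exact ⟨hN.2, (compare d W r s z hs0 hs hsr hu h1 h2).1 hN.1⟩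
  · filter_upwards [eventually_ge_atTop (0 : ℝ)] with u hu
    refine Gd_union fun N h1 h2 hN => ?_
    rcases (compare d W r s z hs0 hs hsr hu h1 h2).2 hN.2 with h | h
    · exact Or.inl ⟨h, hN.1⟩
    · exact Or.inr h

end Pool.Agent.Lib.MP_edb5be_nt.TS.H52
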