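import Pool.Agent.Lib.MP_edb5be_nt.TS.Iface2
import Pool.Agent.Lib.MP_edb5be_nt.TS.H52.Dw
import Pool.Agent.Lib.MP_edb5be_nt.TS.H82.Gbm

/-!
Project TS (MP_edb5be_nt), module DWM: the joint law with the hitting time modulo `m`, natural
density (from the law in blocks).
-/

set_option autoImplicit false

namespace Pool.Agent.Lib.MP_edb5be_nt.TS.H52

open Finset Pool.Agent.Lib.MP_0a5adf_nt.TP Pool.Agent.Lib.MP_edb5be_nt.ND
  Pool.Agent.Lib.MP_edb5be_nt.ND.H82 Filter Topology
open Pool.Agent.Lib.MP_edb5be_nt.TS.H58 (lg lg_iter2 iter_pos lg_of_mem Gd_union Gd_nonneg)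
open Pool.Agent.Lib.MP_edb5be_nt.TS.HB82 (HitM first_ex first_unique gd_hit)

/-- First visits after a time before which `W` is not visited. -/
theorem first_shift {d : Bool} {W : Set ℕ} {n K t : ℕ} (h : n ∉ Rch d W K) :
    First d W ((T d)^[K] n) t ↔ First d W n (K + t) := by
  have hno : ∀ i ≤ K, (T d)^[i] n ∉ W := fun i hi hiW => h ⟨i, hi, hiW⟩
  unfold First
  constructor
  · rintro ⟨h1, h2⟩
    rw [← Function.iterate_add_apply, add_comm] at h1
    refine ⟨h1, fun i hi => ?_⟩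
    rcases le_or_gt i K with h3 | h3
    · exact hno i h3
    · have h4 := h2 (i - K) (by omega)
      rw [← Function.iterate_add_apply, Nat.sub_add_cancel h3.le] at h4
      exact h4
  · rintro ⟨h1, h2⟩
    rw [← Function.iterate_add_apply, add_comm]
    refine ⟨h1, fun i hi => ?_⟩
    have h4 := h2 (i + K) (by omega)
    rwa [Function.iterate_add_apply] at h4

theorem not_rch_of_first {d : Bool} {W : Set ℕ} {n K t : ℕ} (h : First d W n t) (hK : K < t) :
    n ∉ Rch d W K := by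
  rintro ⟨i, hi, hiW⟩
  exact h.2 i (by omega) hiW

theorem rch_eq (d : Bool) (W : Set ℕ) (t : ℕ) : Rch d W t = RchM d W 1 0 t := by
  ext n
  constructor
  · rintro ⟨k, hk, hkW⟩
    obtain ⟨k', hk'⟩ := first_ex (d := d) (W := W) (n := n) ⟨k, hkW⟩
    refine ⟨k', ?_, hk', ?_⟩
    · by_contra hc
      exact hk'.2 k (by omega) hkW
    · unfold Nat.ModEq
      omega
  · rintro ⟨k, hk, h1, _⟩
    exact ⟨k, hk, h1.1⟩

/-- GB from GBM. -/
theorem gb_of_gbm (hG : GBMStatement) : GBStatement := by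
  intro d W D hW hD z t ht
  have h := hG d W D hW hD 1 one_pos z t (fun _ => 0) ht
  simp only [Nat.cast_one, div_one] at h
  refine h.congr fun u => ?_
  rw [rch_eq]

/-- the law in blocks for thresholds with bounded changes -/
theorem blocksM (hF : FDDMStatement) (d : Bool) (W : Set ℕ) (D : ℝ) (hW : W.Finite)
    (hD : Tendsto (Gd (Hit d W)) atTop (𝓝 D)) {m : ℕ} (hm : 0 < m) (c : ℕ) (r : ℕ) (s z : ℕ → ℝ) (hs0 : s 0 = 0)
    (hs : ∀ i < r, s i < s (i + 1)) (hsr : nu * s r < 1) (j k a : ℕ) (Cy : ℕ → ℝ) (Cc : ℝ) :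
    Tendsto (fun u : ℝ =>
      Gd {n : ℕ | n ∈ PathBM d W m c r (fun i => kk s i u)
        (fun i => -(mu * ((s (i + 1) - s i) * (u * Real.log 2))) +
          z i * (th / 2) * √((s (i + 1) - s i) * (u * Real.log 2)) + Cy i)
        (z r * bb * √((1 - nu * s r) * (u * Real.log 2)) + Cc) ∧
        n ≡ a [MOD 2 ^ j * 3 ^ k]} u) atTop
      (𝓝 (D / (m * 2 ^ j * 3 ^ k) * ∏ i ∈ range (r + 1), PhiG (z i))) := by
  have hmu := mu_pos
  have hnu := nu_pos
  have hl2 : 0 < Real.log 2 := Real.log_pos (by norm_num)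
  have hth := th_pos
  have hsnn : ∀ i ≤ r, 0 ≤ s i := by
    intro i
    induction i with
    | zero => intro _; rw [hs0]
    | succ i ih => intro hi; exact (ih (by omega)).trans (hs i (by omega)).le
  have hkb : ∀ i ≤ r, ∀ u : ℝ, 0 ≤ u → (kk s i u : ℝ) ≤ s i * (u * Real.log 2) ∧
      s i * (u * Real.log 2) < kk s i u + 1 := by
    intro i hi u hu
    exact ⟨Nat.floor_le (by have := hsnn i hi; positivity), Nat.lt_floor_add_one _⟩
  refine hF d W D hW hD m hm c r (fun i => 1 - nu * s i) z (by simp [hs0]) ?_ (by simpa using hsr)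
    (fun i u => kk s i u) (fun i u => -(mu * ((s (i + 1) - s i) * (u * Real.log 2))) +
          z i * (th / 2) * √((s (i + 1) - s i) * (u * Real.log 2)) + Cy i)
    (fun u => z r * bb * √((1 - nu * s r) * (u * Real.log 2)) + Cc) ?_ ?_ ?_ ?_ ?_ j k a
  · intro i hi
    have := mul_lt_mul_of_pos_left (hs i hi) hnu
    linarith
  · intro u
    simp [kk, hs0]
  · intro i hi u
    unfold kk
    rcases le_or_gt 0 u with hu | hu
    · apply Nat.floor_mono
      exact mul_le_mul_of_nonneg_right (hs i hi).le (by positivity)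
    · have h1 : s i * (u * Real.log 2) ≤ 0 := by
        apply mul_nonpos_of_nonneg_of_nonpos (hsnn i hi.le)
        exact mul_nonpos_of_nonpos_of_nonneg hu.le hl2.le
      rw [Nat.floor_of_nonpos h1]
      exact Nat.zero_le _
  · refine ⟨mu, fun i hi => ?_⟩
    filter_upwards [eventually_ge_atTop (1 : ℝ)] with u hu
    obtain ⟨h1, h2⟩ := hkb i hi u (by linarith)
    have e : u - mu * kk s i u - (1 - nu * s i) * u = mu * (s i * (u * Real.log 2) - kk s i u) := by
      rw [nu_eq]; ring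
    rw [e, abs_mul, abs_of_pos hmu, abs_of_nonneg (by linarith)]
    apply mul_le_mul_of_nonneg_left _ hmu.le
    have : 1 ≤ √u := Real.one_le_sqrt.2 hu
    linarith
  · intro i hi
    apply tendsto_bdd_div_sqrt (C := mu + |z i * (th / 2)| + |Cy i|)
    filter_upwards [eventually_ge_atTop (0 : ℝ)] with u hu
    obtain ⟨h1, h2⟩ := hkb i hi.le u hu
    obtain ⟨h3, h4⟩ := hkb (i + 1) (by omega) u hu
    have hmono : (kk s i u : ℝ) ≤ kk s (i + 1) u := by
      have : kk s i u ≤ kk s (i + 1) u := by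
        unfold kk
        apply Nat.floor_mono
        exact mul_le_mul_of_nonneg_right (hs i hi).le (by positivity)
      exact_mod_cast this
    have h5 : |(s (i + 1) - s i) * (u * Real.log 2) - ((kk s (i + 1) u : ℝ) - kk s i u)| ≤ 1 := by
      rw [sub_mul, abs_le]
      constructor <;> linarith
    have h6 := abs_sqrt_diff (by
      have := sub_pos.2 (hs i hi)
      positivity) (sub_nonneg.2 hmono) h5
    rw [Real.sqrt_one] at h6
    have e : -(mu * ((s (i + 1) - s i) * (u * Real.log 2))) +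
        z i * (th / 2) * √((s (i + 1) - s i) * (u * Real.log 2)) + Cy i +
        mu * ((kk s (i + 1) u : ℝ) - kk s i u) -
        z i * (th / 2) * √((kk s (i + 1) u : ℝ) - kk s i u) =
        (-(mu * ((s (i + 1) - s i) * (u * Real.log 2) - ((kk s (i + 1) u : ℝ) - kk s i u))) +
        z i * (th / 2) * (√((s (i + 1) - s i) * (u * Real.log 2)) -
          √((kk s (i + 1) u : ℝ) - kk s i u))) + Cy i := by ring
    rw [e]
    refine (abs_add_le _ _).trans (add_le_add ((abs_add_le _ _).trans (add_le_add ?_ ?_)) le_rfl)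
    · rw [abs_neg, abs_mul, abs_of_pos hmu]
      exact mul_le_of_le_one_right hmu.le h5
    · rw [abs_mul]
      exact mul_le_of_le_one_right (abs_nonneg _) h6
  · apply tendsto_bdd_div_sqrt (C := mu * |Cc|)
    filter_upwards [eventually_ge_atTop (0 : ℝ)] with u hu
    have e : mu * (z r * bb * √((1 - nu * s r) * (u * Real.log 2)) + Cc) -
        z r * (th / 2) * √((1 - nu * s r) * u / mu) = mu * Cc := by
      have h1 : √((1 - nu * s r) * (u * Real.log 2)) =
          √((1 - nu * s r) * u) * √(Real.log 2) := by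
        rw [← mul_assoc, Real.sqrt_mul]
        have : 0 < 1 - nu * s r := by linarith
        positivity
      have h2 : √((1 - nu * s r) * u / mu) = √((1 - nu * s r) * u) * (√mu)⁻¹ := by
        rw [Real.sqrt_div, div_eq_mul_inv]
        have : 0 < 1 - nu * s r := by linarith
        positivity
      rw [h1, h2]
      have h3 := bb_eq
      calc mu * (z r * bb * (√((1 - nu * s r) * u) * √(Real.log 2)) + Cc) -
          z r * (th / 2) * (√((1 - nu * s r) * u) * (√mu)⁻¹) =
          z r * √((1 - nu * s r) * u) * (mu * bb * √(Real.log 2) - th / 2 * (√mu)⁻¹) +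
            mu * Cc := by ring
        _ = mu * Cc := by rw [h3]; ring
    rw [e, abs_mul, abs_of_pos hmu]

theorem compareM (d : Bool) (W : Set ℕ) (m c r : ℕ) (s z : ℕ → ℝ) (hs0 : s 0 = 0)
    (hs : ∀ i < r, s i < s (i + 1)) (hsr : nu * s r < 1) {u : ℝ} (hu : 0 ≤ u)
    {n : ℕ} (h1 : (2 : ℝ) ^ u ≤ n) (h2 : (n : ℝ) < 2 ^ (u + 1)) :
    (n ∈ PathBM d W m c r (fun i => kk s i u)
        (fun i => -(mu * ((s (i + 1) - s i) * (u * Real.log 2))) +
          z i * (th / 2) * √((s (i + 1) - s i) * (u * Real.log 2)) + -cy s z r i)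
        (z r * bb * √((1 - nu * s r) * (u * Real.log 2)) + -cc s z r) → PathCM d W m c r s z n ∨
      n ∈ Rch d W (kk s r u)) ∧
    (PathCM d W m c r s z n → n ∈ PathBM d W m c r (fun i => kk s i u)
        (fun i => -(mu * ((s (i + 1) - s i) * (u * Real.log 2))) +
          z i * (th / 2) * √((s (i + 1) - s i) * (u * Real.log 2)) + cy s z r i)
        (z r * bb * √((1 - nu * s r) * (u * Real.log 2)) + cc s z r) ∨
      n ∈ Rch d W (kk s r u)) := by
  have hmu := mu_pos
  have hnu := nu_pos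
  have hl2 : 0 < Real.log 2 := Real.log_pos (by norm_num)
  have hth := th_pos
  have hsnn : ∀ i ≤ r, 0 ≤ s i := by
    intro i
    induction i with
    | zero => intro _; rw [hs0]
    | succ i ih => intro hi; exact (ih (by omega)).trans (hs i (by omega)).le
  have hsle : ∀ m i, i + m = r → s i ≤ s r := by
    intro m
    induction m with
    | zero => intro i hi; rw [← hi, add_zero]
    | succ m ih => intro i hi; exact (hs i (by omega)).le.trans (ih (i + 1) (by omega))
  have hsr' : ∀ i ≤ r, s i ≤ s r := fun i hi => hsle (r - i) i (by omega)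
  obtain ⟨la, lb⟩ := log_block h1 h2
  set l := Real.log n with hl
  have hu2 : 0 ≤ u * Real.log 2 := by positivity
  have hl0 : 0 ≤ l := hu2.trans la
  have hn0 := (lg_of_mem h1 h2).1
  set Q : ℝ := (qq s r : ℝ) with hQ
  have hQ0 : 0 ≤ Q := Nat.cast_nonneg _
  -- heights at the two times
  have hh : ∀ i ≤ r, |Real.logb 2 ((T d)^[⌊s i * l⌋₊] n) - Real.logb 2 ((T d)^[kk s i u] n)| ≤ Q := by
    intro i hi
    obtain ⟨t1, t2⟩ := times (hsnn i hi) (hsr' i hi) hu h1 h2
    rw [← hl] at t1 t2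
    have h3 := lg_iter2 (d := d) hn0 t1
    have h4 : ((⌊s i * l⌋₊ - kk s i u : ℕ) : ℝ) ≤ Q := by
      have : ⌊s i * l⌋₊ - kk s i u ≤ qq s r := by omega
      rw [hQ]
      exact_mod_cast this
    exact h3.trans h4
  have hkt : ∀ i ≤ r, (kk s i u : ℝ) ≤ (⌊s i * l⌋₊ : ℝ) ∧
      (⌊s i * l⌋₊ : ℝ) ≤ (kk s i u : ℝ) + Q := by
    intro i hi
    obtain ⟨t1, t2⟩ := times (hsnn i hi) (hsr' i hi) hu h1 h2
    rw [← hl] at t1 t2
    exact ⟨by exact_mod_cast t1, by rw [hQ]; exact_mod_cast t2⟩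
  -- the square roots
  have hsq : ∀ i < r, |z i * (th / 2) * √((s (i + 1) - s i) * l) -
      z i * (th / 2) * √((s (i + 1) - s i) * (u * Real.log 2))| ≤
      |z i * (th / 2)| * √((s (i + 1) - s i) * Real.log 2) := by
    intro i hi
    have hd := sub_pos.2 (hs i hi)
    apply mul_sqrt_diff (by positivity) (by positivity)
    rw [← mul_sub, abs_mul, abs_of_pos hd, abs_of_nonneg (by linarith)]
    exact mul_le_mul_of_nonneg_left (by linarith) hd.le
  have hsc : |z r * bb * √((1 - nu * s r) * l) - z r * bb * √((1 - nu * s r) * (u * Real.log 2))| ≤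
      |z r * bb| * √((1 - nu * s r) * Real.log 2) := by
    have hd : 0 < 1 - nu * s r := by linarith
    apply mul_sqrt_diff (by positivity) (by positivity)
    rw [← mul_sub, abs_mul, abs_of_pos hd, abs_of_nonneg (by linarith)]
    exact mul_le_mul_of_nonneg_left (by linarith) hd.le
  -- linear terms
  have hlin : ∀ i < r, mu * ((s (i + 1) - s i) * (u * Real.log 2)) ≤ mu * ((s (i + 1) - s i) * l) ∧
      mu * ((s (i + 1) - s i) * l) ≤ mu * ((s (i + 1) - s i) * (u * Real.log 2)) +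
        mu * ((s (i + 1) - s i) * Real.log 2) := by
    intro i hi
    have hd := (sub_pos.2 (hs i hi)).le
    constructor
    · exact mul_le_mul_of_nonneg_left (mul_le_mul_of_nonneg_left la hd) hmu.le
    · have h3 := mul_le_mul_of_nonneg_left (mul_le_mul_of_nonneg_left lb hd) hmu.le
      rw [mul_add, mul_add] at h3
      exact h3
  -- the condition of PathC in base 2
  have hC : ∀ i < r, (Real.log ((T d)^[⌊s (i + 1) * l⌋₊] n) - Real.log ((T d)^[⌊s i * l⌋₊] n) +
      nu * (s (i + 1) - s i) * l ≤ z i * (Real.log 3 / 2) * √((s (i + 1) - s i) * l)) ↔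
      (Real.logb 2 ((T d)^[⌊s (i + 1) * l⌋₊] n) - Real.logb 2 ((T d)^[⌊s i * l⌋₊] n) +
      mu * ((s (i + 1) - s i) * l) ≤ z i * (th / 2) * √((s (i + 1) - s i) * l)) := by
    intro i _
    rw [log_eq (((T d)^[⌊s (i + 1) * l⌋₊] n : ℕ) : ℝ), log_eq (((T d)^[⌊s i * l⌋₊] n : ℕ) : ℝ),
      nu_eq, log3_eq]
    rw [← mul_le_mul_iff_right₀ hl2 (b := Real.logb 2 ((T d)^[⌊s (i + 1) * l⌋₊] n) -
      Real.logb 2 ((T d)^[⌊s i * l⌋₊] n) + mu * ((s (i + 1) - s i) * l))]
    constructor
    · intro h; linarith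
    · intro h; linarith
  constructor
  · rintro ⟨p1, t, ht, htW, htc⟩
    by_cases hR : n ∈ Rch d W (kk s r u)
    · exact Or.inr hR
    refine Or.inl ⟨fun i hi => (hC i hi).2 ?_, kk s r u + t, ?_, (first_shift hR).1 htW, htc⟩
    · have a1 := p1 i hi
      have a2 := abs_le.1 (hh i hi.le)
      have a3 := abs_le.1 (hh (i + 1) (by omega))
      have a4 := abs_le.1 (hsq i hi)
      have a5 := (hlin i hi).2
      simp only [cy] at a1
      linarith [a2.1, a2.2, a3.1, a3.2, a4.1, a4.2]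
    · rw [log_div_nu]
      have a2 := abs_le.1 (hh r le_rfl)
      have a4 := abs_le.1 hsc
      have a6 := hkt r le_rfl
      have a7 : Real.logb 2 ((T d)^[kk s r u] n) / mu ≤
          Real.logb 2 ((T d)^[⌊s r * l⌋₊] n) / mu + Q / mu := by
        rw [← add_div]
        apply div_le_div_of_nonneg_right _ hmu.le
        linarith [a2.1]
      simp only [cc] at ht
      push_cast
      linarith [a4.1, a4.2, a6.1]
  · rintro ⟨p1, t, ht, htW, htc⟩
    rcases lt_or_ge (kk s r u) t with hkr | hkr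
    · left
      have hR := not_rch_of_first htW hkr
      refine ⟨fun i hi => ?_, t - kk s r u, ?_, ?_, ?_⟩
      · have a1 := (hC i hi).1 (p1 i hi)
        have a2 := abs_le.1 (hh i hi.le)
        have a3 := abs_le.1 (hh (i + 1) (by omega))
        have a4 := abs_le.1 (hsq i hi)
        have a5 := (hlin i hi).1
        have a8 : 0 ≤ mu * ((s (i + 1) - s i) * Real.log 2) := by
          have := sub_pos.2 (hs i hi)
          positivity
        simp only [cy]
        linarith [a2.1, a2.2, a3.1, a3.2, a4.1, a4.2]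
      · rw [log_div_nu] at ht
        have a2 := abs_le.1 (hh r le_rfl)
        have a4 := abs_le.1 hsc
        have a6 := hkt r le_rfl
        have a7 : Real.logb 2 ((T d)^[⌊s r * l⌋₊] n) / mu ≤
            Real.logb 2 ((T d)^[kk s r u] n) / mu + Q / mu := by
          rw [← add_div]
          apply div_le_div_of_nonneg_right _ hmu.le
          linarith [a2.2]
        rw [Nat.cast_sub hkr.le]
        simp only [cc]
        linarith [a4.1, a4.2, a6.2]
      · rw [first_shift hR, Nat.add_sub_cancel' hkr.le]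
        exact htW
      · rw [Nat.add_sub_cancel' hkr.le]
        exact htc
    · right
      exact ⟨t, hkr, htW.1⟩

/-- The block proportions are the sums over the residue classes. -/
theorem gd_classes (B : Set ℕ) {M : ℕ} (hM : 0 < M) (u : ℝ) :
    Gd B u = ∑ a ∈ range M, Gd {n : ℕ | n ≡ a [MOD M] ∧ n ∈ B} u := by
  classical
  unfold Gd
  rw [← Finset.sum_div, ← Nat.cast_sum]
  congr 2
  have hf := gd_fin B u
  have h1 : {N : ℕ | N ∈ B ∧ (2 : ℝ) ^ u ≤ N ∧ (N : ℝ) < 2 ^ (u + 1)}.ncard =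
      hf.toFinset.card := Set.ncard_eq_toFinset_card _ hf
  rw [h1, Finset.card_eq_sum_card_fiberwise (f := fun n => n % M) (t := range M)
    (fun n _ => by
      rw [Finset.mem_coe, Finset.mem_range]
      exact Nat.mod_lt _ hM)]
  refine Finset.sum_congr rfl fun r hr => ?_
  rw [← Set.ncard_coe_finset]
  congr 1
  ext N
  rw [Finset.mem_coe, Finset.mem_filter, Set.Finite.mem_toFinset]
  rw [Finset.mem_range] at hr
  constructor
  · rintro ⟨⟨h2, h3⟩, h4⟩
    refine ⟨⟨?_, h2⟩, h3⟩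
    unfold Nat.ModEq
    rw [h4, Nat.mod_eq_of_lt hr]
  · rintro ⟨⟨h2, h3⟩, h4⟩
    refine ⟨⟨h3, h4⟩, ?_⟩
    unfold Nat.ModEq at h2
    rw [h2, Nat.mod_eq_of_lt hr]

/-- Finitely many nonnegative quantities with lower bounds that exhaust the sum. -/
theorem tendsto_of_sum {ι : Type*} [DecidableEq ι] (I : Finset ι) (f : ι → ℝ → ℝ) (l : ι → ℝ)
    (F : ℝ → ℝ) (hF : Tendsto F atTop (𝓝 (∑ i ∈ I, l i)))
    (hsum : ∀ u, ∑ i ∈ I, f i u = F u) (hl : ∀ i ∈ I, ∀ ε : ℝ, 0 < ε → ∀ᶠ u in atTop, l i - ε ≤ f i u)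
    {i₀ : ι} (hi₀ : i₀ ∈ I) : Tendsto (f i₀) atTop (𝓝 (l i₀)) := by
  rw [Metric.tendsto_nhds]
  intro ε hε
  set δ : ℝ := ε / (2 * (I.card + 1)) with hδ
  have hδ0 : 0 < δ := by positivity
  have h1 : ∀ᶠ u in atTop, ∀ i ∈ I, l i - δ ≤ f i u := by
    rw [Filter.eventually_all_finset]
    exact fun i hi => hl i hi δ hδ0
  have h2 : ∀ᶠ u in atTop, F u < ∑ i ∈ I, l i + δ := hF.eventually_lt_const (by linarith)
  filter_upwards [h1, h2] with u h1 h2
  have h3 : ∑ i ∈ I.erase i₀, (l i - δ) ≤ ∑ i ∈ I.erase i₀, f i u :=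
    Finset.sum_le_sum fun i hi => h1 i (Finset.mem_of_mem_erase hi)
  have h4 := Finset.add_sum_erase I (fun i => f i u) hi₀
  have h5 := Finset.add_sum_erase I l hi₀
  rw [Finset.sum_sub_distrib, Finset.sum_const, nsmul_eq_mul] at h3
  have h6 : ((I.erase i₀).card : ℝ) ≤ I.card := by
    exact_mod_cast Finset.card_le_card (Finset.erase_subset _ _)
  have h7 : ((I.erase i₀).card : ℝ) * δ ≤ I.card * δ := mul_le_mul_of_nonneg_right h6 hδ0.le
  have h8 : (I.card : ℝ) * δ + δ = ε / 2 := by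
    rw [hδ]
    field_simp
  have h9 := h1 i₀ hi₀
  have h10 : 0 ≤ (I.card : ℝ) * δ := by positivity
  rw [hsum] at h4
  rw [Real.dist_eq, abs_lt]
  constructor <;> linarith

/-- The law for the paths. -/
theorem dwm_path (hF : FDDMStatement) (hG : GBMStatement) (d : Bool) (W : Set ℕ) (D : ℝ)
    (hW : W.Finite) (hGd : Tendsto (Gd (Hit d W)) atTop (𝓝 D)) {m : ℕ} (hm : 0 < m)
    (c j k a r : ℕ) (s z : ℕ → ℝ) (hs0 : s 0 = 0) (hs : ∀ i < r, s i < s (i + 1))
    (hsr : nu * s r < 1) :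
    Tendsto (Gd {n : ℕ | n ≡ a [MOD 2 ^ j * 3 ^ k] ∧ PathCM d W m c r s z n}) atTop
      (𝓝 (D / (m * 2 ^ j * 3 ^ k) * ∏ i ∈ range (r + 1), PhiG (z i))) := by
  have b1 := blocksM hF d W D hW hGd hm c r s z hs0 hs hsr j k a (fun i => -cy s z r i)
    (-cc s z r)
  have b2 := blocksM hF d W D hW hGd hm c r s z hs0 hs hsr j k a (fun i => cy s z r i)
    (cc s z r)
  have b3 := early (gb_of_gbm hG) d W D hW hGd s r hsr
  have b4 := b2.add b3
  have b5 := b1.sub b3
  rw [add_zero] at b4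
  rw [sub_zero] at b5
  refine tendsto_of_tendsto_of_tendsto_of_le_of_le' b5 b4 ?_ ?_
  · filter_upwards [eventually_ge_atTop (0 : ℝ)] with u hu
    rw [sub_le_iff_le_add]
    refine Gd_union fun N h1 h2 hN => ?_
    rcases (compareM d W m c r s z hs0 hs hsr hu h1 h2).1 hN.1 with h | h
    · exact Or.inl ⟨hN.2, h⟩
    · exact Or.inr h
  · filter_upwards [eventually_ge_atTop (0 : ℝ)] with u hu
    refine Gd_union fun N h1 h2 hN => ?_
    rcases (compareM d W m c r s z hs0 hs hsr hu h1 h2).2 hN.2 with h | h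
    · exact Or.inl ⟨h, hN.1⟩
    · exact Or.inr h

theorem gd_hitM_low (hF : FDDMStatement) (hG : GBMStatement) (d : Bool) (W : Set ℕ) (D : ℝ)
    (hW : W.Finite) (hGd : Tendsto (Gd (Hit d W)) atTop (𝓝 D)) {m : ℕ} (hm : 0 < m)
    (c j k a : ℕ) (ε : ℝ) (hε : 0 < ε) :
    ∀ᶠ u in atTop, D / (m * 2 ^ j * 3 ^ k) - ε ≤
      Gd {n : ℕ | n ≡ a [MOD 2 ^ j * 3 ^ k] ∧ n ∈ HitM d W m c} u := by
  set L : ℝ := D / (m * 2 ^ j * 3 ^ k) with hL
  have h1 : Tendsto (fun z : ℝ => L * PhiG z) atTop (𝓝 (L * 1)) := tendsto_PhiG_atTop.const_mul L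
  rw [mul_one] at h1
  obtain ⟨z, hz⟩ := (h1.eventually_const_lt (by linarith : L - ε < L)).exists
  have h2 := dwm_path hF hG d W D hW hGd hm c j k a 0 (fun _ => 0) (fun _ => z) rfl
    (fun i hi => absurd hi (by omega)) (by simp)
  simp only [zero_add, Finset.prod_range_one] at h2
  filter_upwards [h2.eventually_const_lt hz] with u hu
  refine hu.le.trans (gd_mono fun N _ _ hN => ?_)
  obtain ⟨hN1, _, t, _, ht, htc⟩ := hN
  exact ⟨hN1, t, ht, htc⟩

theorem gd_hitM (hF : FDDMStatement) (hG : GBMStatement) (d : Bool) (W : Set ℕ) (D : ℝ)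
    (hW : W.Finite) (hGd : Tendsto (Gd (Hit d W)) atTop (𝓝 D)) {m : ℕ} (hm : 0 < m)
    (c j k a : ℕ) :
    Tendsto (Gd {n : ℕ | n ≡ a [MOD 2 ^ j * 3 ^ k] ∧ n ∈ HitM d W m c}) atTop
      (𝓝 (D / (m * 2 ^ j * 3 ^ k))) := by
  classical
  set M : ℕ := 2 ^ j * 3 ^ k with hM
  have hM0 : 0 < M := by positivity
  have hMm : (m : ℝ) * M ≠ 0 := by
    have h1 : (0 : ℝ) < m := by exact_mod_cast hm
    have h2 : (0 : ℝ) < M := by exact_mod_cast hM0
    exact (mul_pos h1 h2).ne'
  have hMc : (M : ℝ) = 2 ^ j * 3 ^ k := by rw [hM]; push_cast; ring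
  have hsum : ∀ u, ∑ i ∈ range m ×ˢ range M,
      Gd {n : ℕ | n ≡ i.2 [MOD M] ∧ n ∈ HitM d W m i.1} u = Gd (Hit d W) u := by
    intro u
    rw [gd_hit d W hm u, Finset.sum_product]
    refine Finset.sum_congr rfl fun c _ => ?_
    rw [gd_classes (HitM d W m c) hM0 u]
  have hD : Tendsto (Gd (Hit d W)) atTop
      (𝓝 (∑ _i ∈ range m ×ˢ range M, D / (m * 2 ^ j * 3 ^ k))) := by
    rw [Finset.sum_const, Finset.card_product, card_range, card_range, nsmul_eq_mul,
      Nat.cast_mul, mul_assoc (m : ℝ) (2 ^ j), ← hMc, mul_div_cancel₀ D hMm]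
    exact hGd
  have h := tendsto_of_sum (range m ×ˢ range M)
    (fun i u => Gd {n : ℕ | n ≡ i.2 [MOD M] ∧ n ∈ HitM d W m i.1} u)
    (fun _ => D / (m * 2 ^ j * 3 ^ k)) (Gd (Hit d W)) hD hsum
    (fun i _ ε hε => gd_hitM_low hF hG d W D hW hGd hm i.1 j k i.2 ε hε)
    (i₀ := (c % m, a % M)) (by
      rw [Finset.mem_product]
      exact ⟨mem_range.2 (Nat.mod_lt _ hm), mem_range.2 (Nat.mod_lt _ hM0)⟩)
  refine h.congr fun u => ?_
  simp only
  rw [HB82.hitM_mod]
  congr 1
  ext n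
  exact ⟨fun h => ⟨h.1.trans (Nat.mod_modEq a M), h.2⟩,
    fun h => ⟨h.1.trans (Nat.mod_modEq a M).symm, h.2⟩⟩

/-- DWM. -/
theorem dwm (hF : FDDMStatement) (hG : GBMStatement) : DWMStatement := by
  intro d W D hW hD m hm c j k a
  have hGd := tendsto_gd_of_hasDensN hD
  refine ⟨?_, fun r s z hs0 hs hsr => ?_⟩
  · apply hasDensN_of_blocks
    exact gd_hitM hF hG d W D hW hGd hm c j k a
  · apply hasDensN_of_blocks
    exact dwm_path hF hG d W D hW hGd hm c j k a r s z hs0 hs hsr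

end Pool.Agent.Lib.MP_edb5be_nt.TS.H52
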