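import Pool.Agent.Lib.MP_edb5be_nt.TS.Iface3
import Pool.Agent.Lib.MP_edb5be_nt.TS.H52.Dw

/-!
Project TS (MP_edb5be_nt), module DWS: the joint law of the path and of the time to fall below
`g n`, invariant sets, natural density (from the law in blocks).
-/

set_option autoImplicit false

namespace Pool.Agent.Lib.MP_edb5be_nt.TS.H52

open Finset Pool.Agent.Lib.MP_0a5adf_nt.TP Pool.Agent.Lib.MP_edb5be_nt.ND
  Pool.Agent.Lib.MP_edb5be_nt.ND.H82 Filter Topology
open Pool.Agent.Lib.MP_edb5be_nt.TS.H58 (lg lg_iter2 iter_pos lg_of_mem Gd_union Gd_nonneg)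

/-- Lower and upper heights for `g` in the blocks. -/
theorem lo_choice (g : ℕ → ℝ) (hg : Tendsto g atTop atTop)
    (hg2 : Tendsto (fun n : ℕ => Real.log (g n) / √(Real.log n)) atTop (𝓝 0)) :
    ∃ lo₁ lo₂ : ℝ → ℕ, Tendsto lo₁ atTop atTop ∧
      Tendsto (fun u : ℝ => (lo₁ u : ℝ) / √u) atTop (𝓝 0) ∧ Tendsto lo₂ atTop atTop ∧
      Tendsto (fun u : ℝ => (lo₂ u : ℝ) / √u) atTop (𝓝 0) ∧
      ∀ᶠ u : ℝ in atTop, ∀ N : ℕ, (2 : ℝ) ^ u ≤ N → (N : ℝ) < 2 ^ (u + 1) →
        (2 : ℝ) ^ lo₁ u ≤ g N ∧ g N ≤ 2 ^ lo₂ u := by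
  have hl2 : 0 < Real.log 2 := Real.log_pos (by norm_num)
  -- the lower heights
  obtain ⟨lo₁, l1, l2, l3⟩ := diag (P := fun a u => ∀ n : ℕ, (2 : ℝ) ^ u ≤ n → (2 : ℝ) ^ a ≤ g n)
    (fun a => ev_block (hg.eventually_ge_atTop ((2 : ℝ) ^ a))) tendsto_quarter
  have l4 : Tendsto (fun u : ℝ => (lo₁ u : ℝ) / √u) atTop (𝓝 0) := by
    refine squeeze_zero' (Eventually.of_forall fun u => by positivity) ?_ quarter_div_sqrt
    filter_upwards [eventually_gt_atTop (0 : ℝ)] with u hu
    apply div_le_div_of_nonneg_right _ (Real.sqrt_nonneg _)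
    calc (lo₁ u : ℝ) ≤ (⌊u ^ (1 / 4 : ℝ)⌋₊ : ℝ) := by exact_mod_cast l3 u
      _ ≤ u ^ (1 / 4 : ℝ) := Nat.floor_le (by positivity)
  -- the upper heights
  obtain ⟨m, m1, m2, m3⟩ := diag
    (P := fun m u => ∀ n : ℕ, (2 : ℝ) ^ u ≤ n → Real.log (g n) ≤ √(Real.log n) / (m + 1))
    (fun m => by
      apply ev_block
      have h1 : ∀ᶠ n : ℕ in atTop, Real.log (g n) / √(Real.log n) ≤ 1 / ((m : ℝ) + 1) :=
        hg2.eventually_le_const (by positivity)
      filter_upwards [h1, eventually_ge_atTop 2] with n hn hn2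
      have h2 : 0 < Real.log n := Real.log_pos (by exact_mod_cast hn2)
      rw [div_le_iff₀ (Real.sqrt_pos.2 h2)] at hn
      rw [div_eq_mul_one_div, mul_comm]
      exact hn) tendsto_quarter
  set lo₂ : ℝ → ℕ := fun u => ⌈2 * √u / (m u + 1)⌉₊ with hlo₂
  have n1 : Tendsto lo₂ atTop atTop := by
    have h1 : Tendsto (fun u : ℝ => 2 * √u / ((m u : ℝ) + 1)) atTop atTop := by
      refine tendsto_atTop_mono' atTop ?_ (tendsto_rpow_atTop (by norm_num : (0 : ℝ) < 1 / 4))
      filter_upwards [eventually_ge_atTop (1 : ℝ)] with u hu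
      have hq : 1 ≤ u ^ (1 / 4 : ℝ) := Real.one_le_rpow hu (by norm_num)
      have h2 : (m u : ℝ) ≤ u ^ (1 / 4 : ℝ) := by
        calc (m u : ℝ) ≤ (⌊u ^ (1 / 4 : ℝ)⌋₊ : ℝ) := by exact_mod_cast m3 u
          _ ≤ u ^ (1 / 4 : ℝ) := Nat.floor_le (by positivity)
      have h3 : √u = u ^ (1 / 4 : ℝ) * u ^ (1 / 4 : ℝ) := by
        rw [Real.sqrt_eq_rpow, ← Real.rpow_add (by linarith)]; norm_num
      rw [h3, le_div_iff₀ (by positivity)]
      nlinarith
    exact tendsto_nat_ceil_atTop.comp h1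
  have n2 : Tendsto (fun u : ℝ => (lo₂ u : ℝ) / √u) atTop (𝓝 0) := by
    have h1 : Tendsto (fun u : ℝ => 2 / ((m u : ℝ) + 1) + 1 / √u) atTop (𝓝 (0 + 0)) := by
      apply Tendsto.add
      · apply tendsto_const_nhds.div_atTop
        exact tendsto_atTop_add_const_right atTop _ (tendsto_natCast_atTop_atTop.comp m1)
      · exact tendsto_const_nhds.div_atTop Real.tendsto_sqrt_atTop
    rw [add_zero] at h1
    refine squeeze_zero' (Eventually.of_forall fun u => by positivity) ?_ h1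
    filter_upwards [eventually_gt_atTop (0 : ℝ)] with u hu
    have hs : 0 < √u := Real.sqrt_pos.2 hu
    have h2 : (lo₂ u : ℝ) ≤ 2 * √u / (m u + 1) + 1 := (Nat.ceil_lt_add_one (by positivity)).le
    calc (lo₂ u : ℝ) / √u ≤ (2 * √u / (m u + 1) + 1) / √u :=
          div_le_div_of_nonneg_right h2 hs.le
      _ = 2 / ((m u : ℝ) + 1) + 1 / √u := by field_simp
  refine ⟨lo₁, lo₂, l1, l4, n1, n2, ?_⟩
  filter_upwards [l2, m2, eventually_ge_atTop (1 : ℝ)] with u h1 h2 hu N hN1 hN2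
  refine ⟨h1 N hN1, ?_⟩
  have hg0 : 0 < g N := lt_of_lt_of_le (by positivity) (h1 N hN1)
  have h3 := h2 N hN1
  have h5 : Real.log (g N) ≤ lo₂ u * Real.log 2 := by
    refine h3.trans ?_
    have h6 : 2 * √u / (m u + 1) ≤ lo₂ u := Nat.le_ceil _
    have h7 : √(Real.log N) ≤ 2 * √u * Real.log 2 := by
      apply Real.sqrt_le_iff.2
      refine ⟨by positivity, ?_⟩
      have h8 : (2 * √u * Real.log 2) ^ 2 = 4 * u * Real.log 2 ^ 2 := by
        rw [mul_pow, mul_pow, Real.sq_sqrt (by linarith)]; ring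
      rw [h8]
      have h9 := (log_block hN1 hN2).2
      have h10 : (69 : ℝ) / 100 ≤ Real.log 2 := by have := Real.log_two_gt_d9; linarith
      nlinarith
    calc √(Real.log N) / (m u + 1) ≤ 2 * √u * Real.log 2 / (m u + 1) :=
          div_le_div_of_nonneg_right h7 (by positivity)
      _ = 2 * √u / (m u + 1) * Real.log 2 := by ring
      _ ≤ lo₂ u * Real.log 2 := mul_le_mul_of_nonneg_right h6 hl2.le
  rw [← Real.log_pow] at h5
  exact (Real.log_le_log_iff hg0 (by positivity)).1 h5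

/-- Few numbers fall before the last fixed time. -/
theorem earlyS (hG : GSStatement) (d : Bool) (S : Set ℕ) (lo₀ : ℕ) (D : ℝ) (hS : InvA d S lo₀)
    (hD : Tendsto (Gd S) atTop (𝓝 D)) (lo : ℝ → ℕ) (hlo : Tendsto lo atTop atTop)
    (hlo2 : Tendsto (fun u : ℝ => (lo u : ℝ) / √u) atTop (𝓝 0)) (s : ℕ → ℝ) (r : ℕ) (hs : nu * s r < 1) :
    Tendsto (fun u : ℝ => Gd (Fll d S (lo u) (kk s r u)) u) atTop (𝓝 0) := by
  have hmu := mu_pos
  have hl2 : 0 < Real.log 2 := Real.log_pos (by norm_num)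
  have hb := bb_pos
  -- PhiG is small far to the left
  rw [Metric.tendsto_nhds]
  intro ε hε
  have h1 : Tendsto (fun z : ℝ => D * PhiG z) atBot (𝓝 (D * 0)) :=
    tendsto_PhiG_atBot.const_mul D
  rw [mul_zero] at h1
  obtain ⟨z, hz⟩ := (h1.eventually_lt_const hε).exists
  have h2 := hG d S lo₀ D hS hD lo hlo hlo2 z (fun u => ⌊x0 z u + 0⌋₊) (asym_floor z 0)
  have h3 := h2.eventually_lt_const hz
  -- comparison of the times
  have h4 : Tendsto (fun u : ℝ => √u * (√u * (1 / mu - s r * Real.log 2) +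
      z * bb * √(Real.log 2))) atTop atTop := by
    apply Real.tendsto_sqrt_atTop.atTop_mul_atTop₀
    apply tendsto_atTop_add_const_right
    apply Real.tendsto_sqrt_atTop.atTop_mul_const
    rw [sub_pos, lt_div_iff₀ hmu]
    rw [nu_eq] at hs
    linarith
  filter_upwards [h3, h4.eventually_ge_atTop 0, eventually_ge_atTop (0 : ℝ)] with u h3 h4 hu
  rw [Real.dist_eq, sub_zero, abs_of_nonneg (Gd_nonneg _ _)]
  refine lt_of_le_of_lt (gd_mono fun N _ _ hN => ?_) h3
  obtain ⟨hNS, k, hk, hkW⟩ := hN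
  refine ⟨hNS, k, hk.trans ?_, hkW⟩
  unfold kk
  apply Nat.floor_mono
  unfold x0
  have h5 : √u * (√u * (1 / mu - s r * Real.log 2) + z * bb * √(Real.log 2)) =
      u / mu - s r * (u * Real.log 2) + z * bb * √(Real.log 2) * √u := by
    have : √u * √u = u := Real.mul_self_sqrt hu
    calc √u * (√u * (1 / mu - s r * Real.log 2) + z * bb * √(Real.log 2)) =
        (√u * √u) * (1 / mu - s r * Real.log 2) + z * bb * √(Real.log 2) * √u := by ring
      _ = u / mu - s r * (u * Real.log 2) + z * bb * √(Real.log 2) * √u := by rw [this]; ring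
  rw [h5] at h4
  linarith

/-- the law in blocks for thresholds with bounded changes -/
theorem blocksS (hF : FDDSStatement) (d : Bool) (S : Set ℕ) (lo₀ : ℕ) (D : ℝ) (hS : InvA d S lo₀)
    (hD : Tendsto (Gd S) atTop (𝓝 D)) (lo : ℝ → ℕ) (hlo : Tendsto lo atTop atTop)
    (hlo2 : Tendsto (fun u : ℝ => (lo u : ℝ) / √u) atTop (𝓝 0)) (r : ℕ) (s z : ℕ → ℝ) (hs0 : s 0 = 0)
    (hs : ∀ i < r, s i < s (i + 1)) (hsr : nu * s r < 1) (j k a : ℕ) (Cy : ℕ → ℝ) (Cc : ℝ) :
    Tendsto (fun u : ℝ =>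
      Gd {n : ℕ | n ∈ PathBS d S (lo u) r (fun i => kk s i u)
        (fun i => -(mu * ((s (i + 1) - s i) * (u * Real.log 2))) +
          z i * (th / 2) * √((s (i + 1) - s i) * (u * Real.log 2)) + Cy i)
        (z r * bb * √((1 - nu * s r) * (u * Real.log 2)) + Cc) ∧
        n ≡ a [MOD 2 ^ j * 3 ^ k]} u) atTop
      (𝓝 (D / (2 ^ j * 3 ^ k) * ∏ i ∈ range (r + 1), PhiG (z i))) := by
  have hmu := mu_pos
  have hnu := nu_pos
  have hl2 : 0 < Real.log 2 := Real.log_pos (by norm_num)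
  have hth := th_pos
  have hsnn : ∀ i ≤ r, 0 ≤ s i := by
    intro i
    induction i with
    | zero => intro _; rw [hs0]
    | succ i ih => intro hi; exact (ih (by omega)).trans (hs i (by omega)).le
  have hkb : ∀ i ≤ r, ∀ u : ℝ, 0 ≤ u → (kk s i u : ℝ) ≤ s i * (u * Real.log 2) ∧
      s i * (u * Real.log 2) < kk s i u + 1 := by
    intro i hi u hu
    exact ⟨Nat.floor_le (by have := hsnn i hi; positivity), Nat.lt_floor_add_one _⟩
  refine hF d S lo₀ D hS hD lo hlo hlo2 r (fun i => 1 - nu * s i) z (by simp [hs0]) ?_ (by simpa using hsr)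
    (fun i u => kk s i u) (fun i u => -(mu * ((s (i + 1) - s i) * (u * Real.log 2))) +
          z i * (th / 2) * √((s (i + 1) - s i) * (u * Real.log 2)) + Cy i)
    (fun u => z r * bb * √((1 - nu * s r) * (u * Real.log 2)) + Cc) ?_ ?_ ?_ ?_ ?_ j k a
  · intro i hi
    have := mul_lt_mul_of_pos_left (hs i hi) hnu
    linarith
  · intro u
    simp [kk, hs0]
  · intro i hi u
    unfold kk
    rcases le_or_gt 0 u with hu | hu
    · apply Nat.floor_mono
      exact mul_le_mul_of_nonneg_right (hs i hi).le (by positivity)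
    · have h1 : s i * (u * Real.log 2) ≤ 0 := by
        apply mul_nonpos_of_nonneg_of_nonpos (hsnn i hi.le)
        exact mul_nonpos_of_nonpos_of_nonneg hu.le hl2.le
      rw [Nat.floor_of_nonpos h1]
      exact Nat.zero_le _
  · refine ⟨mu, fun i hi => ?_⟩
    filter_upwards [eventually_ge_atTop (1 : ℝ)] with u hu
    obtain ⟨h1, h2⟩ := hkb i hi u (by linarith)
    have e : u - mu * kk s i u - (1 - nu * s i) * u = mu * (s i * (u * Real.log 2) - kk s i u) := by
      rw [nu_eq]; ring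
    rw [e, abs_mul, abs_of_pos hmu, abs_of_nonneg (by linarith)]
    apply mul_le_mul_of_nonneg_left _ hmu.le
    have : 1 ≤ √u := Real.one_le_sqrt.2 hu
    linarith
  · intro i hi
    apply tendsto_bdd_div_sqrt (C := mu + |z i * (th / 2)| + |Cy i|)
    filter_upwards [eventually_ge_atTop (0 : ℝ)] with u hu
    obtain ⟨h1, h2⟩ := hkb i hi.le u hu
    obtain ⟨h3, h4⟩ := hkb (i + 1) (by omega) u hu
    have hmono : (kk s i u : ℝ) ≤ kk s (i + 1) u := by
      have : kk s i u ≤ kk s (i + 1) u := by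
        unfold kk
        apply Nat.floor_mono
        exact mul_le_mul_of_nonneg_right (hs i hi).le (by positivity)
      exact_mod_cast this
    have h5 : |(s (i + 1) - s i) * (u * Real.log 2) - ((kk s (i + 1) u : ℝ) - kk s i u)| ≤ 1 := by
      rw [sub_mul, abs_le]
      constructor <;> linarith
    have h6 := abs_sqrt_diff (by
      have := sub_pos.2 (hs i hi)
      positivity) (sub_nonneg.2 hmono) h5
    rw [Real.sqrt_one] at h6
    have e : -(mu * ((s (i + 1) - s i) * (u * Real.log 2))) +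
        z i * (th / 2) * √((s (i + 1) - s i) * (u * Real.log 2)) + Cy i +
        mu * ((kk s (i + 1) u : ℝ) - kk s i u) -
        z i * (th / 2) * √((kk s (i + 1) u : ℝ) - kk s i u) =
        (-(mu * ((s (i + 1) - s i) * (u * Real.log 2) - ((kk s (i + 1) u : ℝ) - kk s i u))) +
        z i * (th / 2) * (√((s (i + 1) - s i) * (u * Real.log 2)) -
          √((kk s (i + 1) u : ℝ) - kk s i u))) + Cy i := by ring
    rw [e]
    refine (abs_add_le _ _).trans (add_le_add ((abs_add_le _ _).trans (add_le_add ?_ ?_)) le_rfl)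
    · rw [abs_neg, abs_mul, abs_of_pos hmu]
      exact mul_le_of_le_one_right hmu.le h5
    · rw [abs_mul]
      exact mul_le_of_le_one_right (abs_nonneg _) h6
  · apply tendsto_bdd_div_sqrt (C := mu * |Cc|)
    filter_upwards [eventually_ge_atTop (0 : ℝ)] with u hu
    have e : mu * (z r * bb * √((1 - nu * s r) * (u * Real.log 2)) + Cc) -
        z r * (th / 2) * √((1 - nu * s r) * u / mu) = mu * Cc := by
      have h1 : √((1 - nu * s r) * (u * Real.log 2)) =
          √((1 - nu * s r) * u) * √(Real.log 2) := by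
        rw [← mul_assoc, Real.sqrt_mul]
        have : 0 < 1 - nu * s r := by linarith
        positivity
      have h2 : √((1 - nu * s r) * u / mu) = √((1 - nu * s r) * u) * (√mu)⁻¹ := by
        rw [Real.sqrt_div, div_eq_mul_inv]
        have : 0 < 1 - nu * s r := by linarith
        positivity
      rw [h1, h2]
      have h3 := bb_eq
      calc mu * (z r * bb * (√((1 - nu * s r) * u) * √(Real.log 2)) + Cc) -
          z r * (th / 2) * (√((1 - nu * s r) * u) * (√mu)⁻¹) =
          z r * √((1 - nu * s r) * u) * (mu * bb * √(Real.log 2) - th / 2 * (√mu)⁻¹) +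
            mu * Cc := by ring
        _ = mu * Cc := by rw [h3]; ring
    rw [e, abs_mul, abs_of_pos hmu]

theorem compareS (d : Bool) (S : Set ℕ) (g : ℕ → ℝ) (r : ℕ) (s z : ℕ → ℝ) (hs0 : s 0 = 0)
    (hs : ∀ i < r, s i < s (i + 1)) (hsr : nu * s r < 1) {u : ℝ} (hu : 0 ≤ u)
    {n lo₁ lo₂ : ℕ} (h1 : (2 : ℝ) ^ u ≤ n) (h2 : (n : ℝ) < 2 ^ (u + 1))
    (hg1 : (2 : ℝ) ^ lo₁ ≤ g n) (hg2 : g n ≤ 2 ^ lo₂) :
    (n ∈ PathBS d S lo₁ r (fun i => kk s i u)
        (fun i => -(mu * ((s (i + 1) - s i) * (u * Real.log 2))) +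
          z i * (th / 2) * √((s (i + 1) - s i) * (u * Real.log 2)) + -cy s z r i)
        (z r * bb * √((1 - nu * s r) * (u * Real.log 2)) + -cc s z r) → n ∈ S ∧ PathCS d g r s z n) ∧
    (n ∈ S ∧ PathCS d g r s z n → n ∈ PathBS d S lo₂ r (fun i => kk s i u)
        (fun i => -(mu * ((s (i + 1) - s i) * (u * Real.log 2))) +
          z i * (th / 2) * √((s (i + 1) - s i) * (u * Real.log 2)) + cy s z r i)
        (z r * bb * √((1 - nu * s r) * (u * Real.log 2)) + cc s z r) ∨
      n ∈ Fll d S lo₂ (kk s r u)) := by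
  have hmu := mu_pos
  have hnu := nu_pos
  have hl2 : 0 < Real.log 2 := Real.log_pos (by norm_num)
  have hth := th_pos
  have hsnn : ∀ i ≤ r, 0 ≤ s i := by
    intro i
    induction i with
    | zero => intro _; rw [hs0]
    | succ i ih => intro hi; exact (ih (by omega)).trans (hs i (by omega)).le
  have hsle : ∀ m i, i + m = r → s i ≤ s r := by
    intro m
    induction m with
    | zero => intro i hi; rw [← hi, add_zero]
    | succ m ih => intro i hi; exact (hs i (by omega)).le.trans (ih (i + 1) (by omega))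
  have hsr' : ∀ i ≤ r, s i ≤ s r := fun i hi => hsle (r - i) i (by omega)
  obtain ⟨la, lb⟩ := log_block h1 h2
  set l := Real.log n with hl
  have hu2 : 0 ≤ u * Real.log 2 := by positivity
  have hl0 : 0 ≤ l := hu2.trans la
  have hn0 := (lg_of_mem h1 h2).1
  set Q : ℝ := (qq s r : ℝ) with hQ
  have hQ0 : 0 ≤ Q := Nat.cast_nonneg _
  -- heights at the two times
  have hh : ∀ i ≤ r, |Real.logb 2 ((T d)^[⌊s i * l⌋₊] n) - Real.logb 2 ((T d)^[kk s i u] n)| ≤ Q := by
    intro i hi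
    obtain ⟨t1, t2⟩ := times (hsnn i hi) (hsr' i hi) hu h1 h2
    rw [← hl] at t1 t2
    have h3 := lg_iter2 (d := d) hn0 t1
    have h4 : ((⌊s i * l⌋₊ - kk s i u : ℕ) : ℝ) ≤ Q := by
      have : ⌊s i * l⌋₊ - kk s i u ≤ qq s r := by omega
      rw [hQ]
      exact_mod_cast this
    exact h3.trans h4
  have hkt : ∀ i ≤ r, (kk s i u : ℝ) ≤ (⌊s i * l⌋₊ : ℝ) ∧
      (⌊s i * l⌋₊ : ℝ) ≤ (kk s i u : ℝ) + Q := by
    intro i hi
    obtain ⟨t1, t2⟩ := times (hsnn i hi) (hsr' i hi) hu h1 h2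
    rw [← hl] at t1 t2
    exact ⟨by exact_mod_cast t1, by rw [hQ]; exact_mod_cast t2⟩
  -- the square roots
  have hsq : ∀ i < r, |z i * (th / 2) * √((s (i + 1) - s i) * l) -
      z i * (th / 2) * √((s (i + 1) - s i) * (u * Real.log 2))| ≤
      |z i * (th / 2)| * √((s (i + 1) - s i) * Real.log 2) := by
    intro i hi
    have hd := sub_pos.2 (hs i hi)
    apply mul_sqrt_diff (by positivity) (by positivity)
    rw [← mul_sub, abs_mul, abs_of_pos hd, abs_of_nonneg (by linarith)]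
    exact mul_le_mul_of_nonneg_left (by linarith) hd.le
  have hsc : |z r * bb * √((1 - nu * s r) * l) - z r * bb * √((1 - nu * s r) * (u * Real.log 2))| ≤
      |z r * bb| * √((1 - nu * s r) * Real.log 2) := by
    have hd : 0 < 1 - nu * s r := by linarith
    apply mul_sqrt_diff (by positivity) (by positivity)
    rw [← mul_sub, abs_mul, abs_of_pos hd, abs_of_nonneg (by linarith)]
    exact mul_le_mul_of_nonneg_left (by linarith) hd.le
  -- linear terms
  have hlin : ∀ i < r, mu * ((s (i + 1) - s i) * (u * Real.log 2)) ≤ mu * ((s (i + 1) - s i) * l) ∧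
      mu * ((s (i + 1) - s i) * l) ≤ mu * ((s (i + 1) - s i) * (u * Real.log 2)) +
        mu * ((s (i + 1) - s i) * Real.log 2) := by
    intro i hi
    have hd := (sub_pos.2 (hs i hi)).le
    constructor
    · exact mul_le_mul_of_nonneg_left (mul_le_mul_of_nonneg_left la hd) hmu.le
    · have h3 := mul_le_mul_of_nonneg_left (mul_le_mul_of_nonneg_left lb hd) hmu.le
      rw [mul_add, mul_add] at h3
      exact h3
  -- the condition of PathC in base 2
  have hC : ∀ i < r, (Real.log ((T d)^[⌊s (i + 1) * l⌋₊] n) - Real.log ((T d)^[⌊s i * l⌋₊] n) +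
      nu * (s (i + 1) - s i) * l ≤ z i * (Real.log 3 / 2) * √((s (i + 1) - s i) * l)) ↔
      (Real.logb 2 ((T d)^[⌊s (i + 1) * l⌋₊] n) - Real.logb 2 ((T d)^[⌊s i * l⌋₊] n) +
      mu * ((s (i + 1) - s i) * l) ≤ z i * (th / 2) * √((s (i + 1) - s i) * l)) := by
    intro i _
    rw [log_eq (((T d)^[⌊s (i + 1) * l⌋₊] n : ℕ) : ℝ), log_eq (((T d)^[⌊s i * l⌋₊] n : ℕ) : ℝ),
      nu_eq, log3_eq]
    rw [← mul_le_mul_iff_right₀ hl2 (b := Real.logb 2 ((T d)^[⌊s (i + 1) * l⌋₊] n) -
      Real.logb 2 ((T d)^[⌊s i * l⌋₊] n) + mu * ((s (i + 1) - s i) * l))]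
    constructor
    · intro h; linarith
    · intro h; linarith
  constructor
  · rintro ⟨hnS, p1, t, ht, htW⟩
    refine ⟨hnS, fun i hi => (hC i hi).2 ?_, kk s r u + t, ?_, lt_of_lt_of_le ?_ hg1⟩
    · have a1 := p1 i hi
      have a2 := abs_le.1 (hh i hi.le)
      have a3 := abs_le.1 (hh (i + 1) (by omega))
      have a4 := abs_le.1 (hsq i hi)
      have a5 := (hlin i hi).2
      simp only [cy] at a1
      linarith [a2.1, a2.2, a3.1, a3.2, a4.1, a4.2]
    · rw [log_div_nu]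
      have a2 := abs_le.1 (hh r le_rfl)
      have a4 := abs_le.1 hsc
      have a6 := hkt r le_rfl
      have a7 : Real.logb 2 ((T d)^[kk s r u] n) / mu ≤
          Real.logb 2 ((T d)^[⌊s r * l⌋₊] n) / mu + Q / mu := by
        rw [← add_div]
        apply div_le_div_of_nonneg_right _ hmu.le
        linarith [a2.1]
      simp only [cc] at ht
      push_cast
      linarith [a4.1, a4.2, a6.1]
    · exact_mod_cast htW
  · rintro ⟨hnS, p1, t, ht, htW⟩
    have htW' : (T d)^[t] n < 2 ^ lo₂ := by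
      have h3 := lt_of_lt_of_le htW hg2
      exact_mod_cast h3
    rcases le_or_gt (kk s r u) t with hkr | hkr
    · left
      refine ⟨hnS, fun i hi => ?_, t - kk s r u, ?_, ?_⟩
      · have a1 := (hC i hi).1 (p1 i hi)
        have a2 := abs_le.1 (hh i hi.le)
        have a3 := abs_le.1 (hh (i + 1) (by omega))
        have a4 := abs_le.1 (hsq i hi)
        have a5 := (hlin i hi).1
        have a8 : 0 ≤ mu * ((s (i + 1) - s i) * Real.log 2) := by
          have := sub_pos.2 (hs i hi)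
          positivity
        simp only [cy]
        linarith [a2.1, a2.2, a3.1, a3.2, a4.1, a4.2]
      · rw [log_div_nu] at ht
        have a2 := abs_le.1 (hh r le_rfl)
        have a4 := abs_le.1 hsc
        have a6 := hkt r le_rfl
        have a7 : Real.logb 2 ((T d)^[⌊s r * l⌋₊] n) / mu ≤
            Real.logb 2 ((T d)^[kk s r u] n) / mu + Q / mu := by
          rw [← add_div]
          apply div_le_div_of_nonneg_right _ hmu.le
          linarith [a2.2]
        rw [Nat.cast_sub hkr]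
        simp only [cc]
        linarith [a4.1, a4.2, a6.2]
      · rw [Nat.add_sub_cancel' hkr]
        exact htW'
    · right
      exact ⟨hnS, t, hkr.le, htW'⟩

/-- DWS. -/
theorem dws (hF : FDDSStatement) (hG : GSStatement) : DWSStatement := by
  intro d S lo₀ D hS hD g hg hg2 r s z hs0 hs hsr j k a
  have hGd := tendsto_gd_of_hasDensN hD
  obtain ⟨lo₁, lo₂, l1, l2, l3, l4, l5⟩ := lo_choice g hg hg2
  have b1 := blocksS hF d S lo₀ D hS hGd lo₁ l1 l2 r s z hs0 hs hsr j k a (fun i => -cy s z r i)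
    (-cc s z r)
  have b2 := blocksS hF d S lo₀ D hS hGd lo₂ l3 l4 r s z hs0 hs hsr j k a (fun i => cy s z r i)
    (cc s z r)
  have b3 := earlyS hG d S lo₀ D hS hGd lo₂ l3 l4 s r hsr
  have b4 := b2.add b3
  rw [add_zero] at b4
  apply hasDensN_of_blocks
  refine tendsto_of_tendsto_of_tendsto_of_le_of_le' b1 b4 ?_ ?_
  · filter_upwards [eventually_ge_atTop (0 : ℝ), l5] with u hu h5
    refine gd_mono fun N h1 h2 hN => ?_
    obtain ⟨h6, h7⟩ := h5 N h1 h2
    obtain ⟨h8, h9⟩ := (compareS d S g r s z hs0 hs hsr hu h1 h2 h6 h7).1 hN.1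
    exact ⟨h8, hN.2, h9⟩
  · filter_upwards [eventually_ge_atTop (0 : ℝ), l5] with u hu h5
    refine Gd_union fun N h1 h2 hN => ?_
    obtain ⟨h6, h7⟩ := h5 N h1 h2
    rcases (compareS d S g r s z hs0 hs hsr hu h1 h2 h6 h7).2 ⟨hN.1, hN.2.2⟩ with h | h
    · exact Or.inl ⟨h, hN.2.1⟩
    · exact Or.inr h

end Pool.Agent.Lib.MP_edb5be_nt.TS.H52
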